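import Pool.Agent.H170.NHN.Main

set_option autoImplicit false

namespace Pool.Agent.H170.NHN

open Set MeasureTheory TopologicalSpace Function

universe u

variable {G : Type u} [Group G] [TopologicalSpace G] [IsTopologicalGroup G] [PolishSpace G]

/-- the generic Cantor set of central differences -/
theorem exists_generic (N M : Subgroup G) (hN : IsClosed (N : Set G))
    (hM : IsClosed (M : Set G)) (hun : Uncountable (M ⧸ N.subgroupOf M)) :
    ∃ h : (ℕ → Bool) → M, Continuous h ∧
      ∀ b : Fin 4 → ℕ → Bool, Injective b →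
        ((h (b 0) : G) * (h (b 1) : G)⁻¹ * ((h (b 2) : G) * (h (b 3) : G)⁻¹)⁻¹ ∉ N) ∧
        ((h (b 0) : G) * (h (b 1) : G)⁻¹ * ((h (b 1) : G) * (h (b 2) : G)⁻¹)⁻¹ ∉ N) ∧
        ((h (b 0) : G) * (h (b 1) : G)⁻¹ ∉ N) := by
  have : PolishSpace M := hM.polishSpace
  have hNo : IsOpen ((N : Set G)ᶜ) := hN.isOpen_compl
  -- coset complements
  have hdense : Dense (((N.subgroupOf M : Subgroup M) : Set M)ᶜ) := dense_compl _ hun
  have hopen : IsOpen (((N.subgroupOf M : Subgroup M) : Set M)ᶜ) := by
    have : (((N.subgroupOf M : Subgroup M) : Set M)ᶜ) = (fun z : M => (z : G)) ⁻¹' ((N : Set G)ᶜ) := by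
      ext z
      simp [Subgroup.mem_subgroupOf]
    rw [this]
    exact hNo.preimage continuous_subtype_val
  have hco : ∀ c : M, IsOpen {z : M | z * c⁻¹ ∉ N.subgroupOf M} ∧
      Dense {z : M | z * c⁻¹ ∉ N.subgroupOf M} := by
    intro c
    have h1 : {z : M | z * c⁻¹ ∉ N.subgroupOf M} =
        (Homeomorph.mulRight c⁻¹) ⁻¹' (((N.subgroupOf M : Subgroup M) : Set M)ᶜ) := by
      ext z; simp
    rw [h1]
    exact ⟨hopen.preimage (Homeomorph.mulRight c⁻¹).continuous,
      hdense.preimage (Homeomorph.mulRight c⁻¹).isOpenMap⟩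
  let W : Set (Fin 4 → M) := {y | (((y 0 : G) * (y 1 : G)⁻¹ * ((y 2 : G) * (y 3 : G)⁻¹)⁻¹ ∉ N) ∧
        ((y 0 : G) * (y 1 : G)⁻¹ * ((y 1 : G) * (y 2 : G)⁻¹)⁻¹ ∉ N) ∧
        ((y 0 : G) * (y 1 : G)⁻¹ ∉ N))}
  have hc : ∀ i : Fin 4, Continuous (fun y : Fin 4 → M => (y i : G)) :=
    fun i => continuous_subtype_val.comp (continuous_apply i)
  have hWo : IsOpen W := by
    refine IsOpen.inter ?_ (IsOpen.inter ?_ ?_)
    · exact hNo.preimage (((hc 0).mul (hc 1).inv).mul (((hc 2).mul (hc 3).inv).inv))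
    · exact hNo.preimage (((hc 0).mul (hc 1).inv).mul (((hc 1).mul (hc 2).inv).inv))
    · exact hNo.preimage ((hc 0).mul (hc 1).inv)
  have hWd : Dense W := by
    intro y
    let c1 : M := y 2 * (y 3)⁻¹ * y 1
    let c2 : M := y 1 * (y 2)⁻¹ * y 1
    let c3 : M := y 1
    have hD : Dense ({z : M | z * c1⁻¹ ∉ N.subgroupOf M} ∩ ({z : M | z * c2⁻¹ ∉ N.subgroupOf M} ∩
        {z : M | z * c3⁻¹ ∉ N.subgroupOf M})) := by
      refine (hco c1).2.inter_of_isOpen_left ?_ (hco c1).1
      exact (hco c2).2.inter_of_isOpen_left (hco c3).2 (hco c2).1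
    have hcont : Continuous (fun z : M => Function.update y 0 z) :=
      continuous_const.update 0 continuous_id
    have hy : y = Function.update y 0 (y 0) := (Function.update_eq_self 0 y).symm
    rw [hy]
    refine map_mem_closure hcont (hD (y 0)) ?_
    rintro z ⟨h1, h2, h3⟩
    have e0 : (Function.update y 0 z) 0 = z := Function.update_self _ _ _
    have e1 : (Function.update y 0 z) 1 = y 1 := Function.update_of_ne (by decide) _ _
    have e2 : (Function.update y 0 z) 2 = y 2 := Function.update_of_ne (by decide) _ _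
    have e3 : (Function.update y 0 z) 3 = y 3 := Function.update_of_ne (by decide) _ _
    change ((Function.update y 0 z 0 : M) : G) * _ * _ ∉ N ∧ _ ∧ _
    rw [e0, e1, e2, e3]
    simp only [mem_ofPred_eq, Subgroup.mem_subgroupOf, c1, c2, c3] at h1 h2 h3
    refine ⟨?_, ?_, ?_⟩
    · convert h1 using 2
      push_cast
      group
    · convert h2 using 2
      push_cast
      group
    · exact h3
  obtain ⟨h, hh1, hh2⟩ := mycielski4' W hWo hWd
  exact ⟨h, hh1, fun b hb => hh2 b hb⟩

theorem cover [MeasurableSpace G] [BorelSpace G] (N M : Subgroup G) (hn : N.Normal)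
    (hN : IsClosed (N : Set G)) (hM : IsClosed (M : Set G))
    (hcomm : ∀ g : G, ∀ m ∈ M, g * m * g⁻¹ * m⁻¹ ∈ N)
    (hun : Uncountable (M ⧸ N.subgroupOf M)) :
    ∃ S : ℕ → Set G, (∀ n, NaivelyHaarNull (S n)) ∧ Pairwise (Disjoint on S) ∧
      ⋃ n, S n = univ := by
  obtain ⟨h, hcont, hgen⟩ := exists_generic N M hN hM hun
  let q : G →* G ⧸ N := QuotientGroup.mk' N
  have hq : ∀ x : G, q x = 1 ↔ x ∈ N := fun x => QuotientGroup.eq_one_iff x
  let P : ℕ × (ℕ → Bool) → G ⧸ N := fun a => q (h (code a))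
  have hc : ∀ a x, P a * x = x * P a := by
    intro a x
    obtain ⟨g, rfl⟩ := QuotientGroup.mk'_surjective N x
    have h1 := (hq _).2 (hcomm g (h (code a)) (h (code a)).2)
    simp only [map_mul, map_inv] at h1
    change q (h (code a)) * q g = q g * q (h (code a))
    have h2 : q g * q (h (code a)) * (q g)⁻¹ = q (h (code a)) := by
      rw [← mul_inv_eq_one]; exact h1
    calc q (h (code a)) * q g = (q g * q (h (code a)) * (q g)⁻¹) * q g := by rw [h2]
      _ = q g * q (h (code a)) := by group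
  -- genericity in the quotient
  have hfresh : ∀ s : Finset (ℕ → Bool), ∃ c, c ∉ s := fun s => Infinite.exists_notMem_finset s
  have hQ4 : ∀ a b c d : ℕ → Bool, a ≠ b → a ≠ c → a ≠ d → b ≠ c → b ≠ d → c ≠ d →
      q (h a) * (q (h b))⁻¹ ≠ q (h c) * (q (h d))⁻¹ := by
    intro a b c d h1 h2 h3 h4 h5 h6 he
    refine (hgen _ (inj4 h1 h2 h3 h4 h5 h6)).1 ?_
    rw [← hq]
    simp only [map_mul, map_inv]
    rw [mul_inv_eq_one]
    exact he
  have hQ3 : ∀ a b c : ℕ → Bool, a ≠ b → a ≠ c → b ≠ c →
      q (h a) * (q (h b))⁻¹ ≠ q (h b) * (q (h c))⁻¹ := by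
    intro a b c h1 h2 h3 he
    classical
    obtain ⟨d, hd⟩ := hfresh {a, b, c}
    simp only [Finset.mem_insert, Finset.mem_singleton, not_or] at hd
    refine (hgen _ (inj4 h1 h2 (Ne.symm hd.1) h3 (Ne.symm hd.2.1) (Ne.symm hd.2.2))).2.1 ?_
    rw [← hq]
    simp only [map_mul, map_inv]
    rw [mul_inv_eq_one]
    exact he
  have hQ2 : ∀ a b : ℕ → Bool, a ≠ b → q (h a) ≠ q (h b) := by
    intro a b h1 he
    classical
    obtain ⟨c, hc⟩ := hfresh {a, b}
    simp only [Finset.mem_insert, Finset.mem_singleton, not_or] at hc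
    obtain ⟨d, hd⟩ := hfresh {a, b, c}
    simp only [Finset.mem_insert, Finset.mem_singleton, not_or] at hd
    refine (hgen _ (inj4 h1 (Ne.symm hc.1) (Ne.symm hd.1) (Ne.symm hc.2) (Ne.symm hd.2.1)
      (Ne.symm hd.2.2))).2.2 ?_
    rw [← hq]
    simp only [map_mul, map_inv]
    rw [mul_inv_eq_one]
    exact he
  have hstar' : ∀ a b c d : ℕ → Bool, a ≠ b → c ≠ d →
      q (h a) * (q (h b))⁻¹ = q (h c) * (q (h d))⁻¹ → (a = c ∧ b = d) ∨ (a = d ∧ b = c) := by
    intro a b c d hab hcd he
    by_cases hac : a = c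
    · subst hac
      left
      refine ⟨rfl, ?_⟩
      by_contra hbd
      exact hQ2 b d hbd (inv_injective (mul_left_cancel he))
    · by_cases hbd : b = d
      · subst hbd
        exact (hQ2 a c hac (mul_right_cancel he)).elim
      · by_cases had : a = d
        · subst had
          by_cases hbc : b = c
          · exact Or.inr ⟨rfl, hbc⟩
          · exact (hQ3 c a b (Ne.symm hac) (Ne.symm hbc) hab he.symm).elim
        · by_cases hbc : b = c
          · subst hbc
            exact (hQ3 a b d hab had hbd he).elim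
          · exact (hQ4 a b c d hab hac had hbc hbd hcd he).elim
  have hst : Star P := by
    intro a a' d d' h1 h2 he
    rcases hstar' (code a) (code a') (code d) (code d') (code_injective.ne h1)
      (code_injective.ne h2) he with ⟨h3, h4⟩ | ⟨h3, h4⟩
    · exact Or.inl ⟨code_injective h3, code_injective h4⟩
    · exact Or.inr ⟨code_injective h3, code_injective h4⟩
  have hPinj : Injective P := by
    intro a a' he
    by_contra hne
    exact hQ2 _ _ (code_injective.ne hne) he
  obtain ⟨c, hcfin⟩ := exists_coloring P hc hst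
  refine ⟨fun n => {x | c (q x) = n}, ?_, ?_, ?_⟩
  · intro n
    have hunc : Uncountable (ℕ → Bool) := by
      rw [← Cardinal.aleph0_lt_mk_iff]
      simpa using Cardinal.cantor Cardinal.aleph0
    let e : ℝ ≃ᵐ (ℕ → Bool) := PolishSpace.measurableEquivOfNotCountable
      (not_countable_iff.2 inferInstance) (not_countable_iff.2 inferInstance)
    let f : ℝ → G := fun r => (h (code (n, e r)) : G)
    have hfm : Measurable f := by
      have h1 : Continuous (fun b : ℕ → Bool => (h (code (n, b)) : G)) :=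
        continuous_subtype_val.comp (hcont.comp (continuous_code n))
      exact h1.measurable.comp e.measurable
    have hfi : Injective f := by
      intro r s hrs
      have h1 : P (n, e r) = P (n, e s) := congrArg q hrs
      have h2 := hPinj h1
      rw [Prod.mk.injEq] at h2
      exact e.injective h2.2
    have hemb : MeasurableEmbedding f := hfm.measurableEmbedding hfi
    have hprob : IsProbabilityMeasure (volume.restrict (Icc (0 : ℝ) 1)) := ⟨by simp⟩
    refine ⟨(volume.restrict (Icc (0 : ℝ) 1)).map f,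
      Measure.isProbabilityMeasure_map hfm.aemeasurable, fun g k => ?_⟩
    rw [hemb.map_apply]
    apply Set.Countable.measure_zero
    apply Set.Finite.countable
    have hφ : Injective (fun r : ℝ => P (n, e r) * ((q g)⁻¹ * (q k)⁻¹)) := by
      intro r s hrs
      have h2 := hPinj (mul_right_cancel hrs)
      rw [Prod.mk.injEq] at h2
      exact e.injective h2.2
    refine ((hcfin n ((q g)⁻¹ * (q k)⁻¹)).preimage hφ.injOn).subset ?_
    rintro r ⟨x, hx, hxr⟩
    have h1 : q x = P (n, e r) * ((q g)⁻¹ * (q k)⁻¹) := by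
      have h2 : q g * q x * q k = P (n, e r) := by
        have := congrArg q hxr
        simpa only [map_mul] using this
      have h3 : q x = (q g)⁻¹ * P (n, e r) * (q k)⁻¹ := by
        rw [← h2]; group
      rw [h3, ← hc, mul_assoc]
    refine ⟨?_, e r, rfl⟩
    change c (P (n, e r) * ((q g)⁻¹ * (q k)⁻¹)) = n
    rw [← h1]
    exact hx
  · intro n m hnm
    rw [Function.onFun, Set.disjoint_left]
    rintro x hx hx'
    exact hnm (hx.symm.trans hx')
  · refine eq_univ_of_forall fun x => mem_iUnion.2 ⟨c (q x), rfl⟩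

end Pool.Agent.H170.NHN
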