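import Mathlib

set_option autoImplicit false

/-!
Erdős–Hajnal type orientation lemma: a graph in which any two distinct vertices have only
countably many common neighbours can be oriented with finite out-degrees.
-/

namespace Pool.Agent.H170.NHN

open Set Cardinal

universe u

/-- The graph with (symmetric) adjacency relation `A` has an orientation with finite
out-degrees. -/
def Good {V : Type u} (A : V → V → Prop) : Prop :=
  ∃ O : V → V → Prop, (∀ u v, A u v → O u v ∨ O v u) ∧ ∀ u, {v | A u v ∧ O u v}.Finite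

section
variable {V : Type u} (A : V → V → Prop)

/-- stages of the closure under common neighbours -/
def stage (S : Set V) : ℕ → Set V
  | 0 => S
  | n + 1 => stage S n ∪ ⋃ p : (stage S n) × (stage S n),
      {w | p.1 ≠ p.2 ∧ A p.1 w ∧ A p.2 w}

/-- closure under common neighbours -/
def cl (S : Set V) : Set V := ⋃ n : ULift.{u} ℕ, stage A S n.down

theorem stage_mono_nat (S : Set V) {m n : ℕ} (h : m ≤ n) : stage A S m ⊆ stage A S n := by
  induction h with
  | refl => exact subset_rfl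
  | step _ ih => exact ih.trans subset_union_left

theorem stage_mono {S T : Set V} (h : S ⊆ T) (n : ℕ) : stage A S n ⊆ stage A T n := by
  induction n with
  | zero => exact h
  | succ n ih =>
    rintro x (hx | hx)
    · exact Or.inl (ih hx)
    · obtain ⟨⟨p, q⟩, h1, h2, h3⟩ := mem_iUnion.1 hx
      refine Or.inr (mem_iUnion.2 ⟨⟨⟨p, ih p.2⟩, ⟨q, ih q.2⟩⟩, ?_, h2, h3⟩)
      intro h
      apply h1
      have := congrArg Subtype.val h
      exact Subtype.ext this

theorem cl_mono {S T : Set V} (h : S ⊆ T) : cl A S ⊆ cl A T :=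
  iUnion_mono fun n => stage_mono A h n.down

theorem subset_cl (S : Set V) : S ⊆ cl A S :=
  fun _ hx => mem_iUnion.2 ⟨⟨0⟩, hx⟩

theorem cl_closed (S : Set V) {u v w : V} (hu : u ∈ cl A S) (hv : v ∈ cl A S) (huv : u ≠ v)
    (h1 : A u w) (h2 : A v w) : w ∈ cl A S := by
  obtain ⟨⟨m⟩, hm⟩ := mem_iUnion.1 hu
  obtain ⟨⟨n⟩, hn⟩ := mem_iUnion.1 hv
  refine mem_iUnion.2 ⟨⟨max m n + 1⟩, Or.inr (mem_iUnion.2 ⟨⟨⟨u, ?_⟩, ⟨v, ?_⟩⟩, ?_, h1, h2⟩)⟩
  · exact stage_mono_nat A S (le_max_left m n) hm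
  · exact stage_mono_nat A S (le_max_right m n) hn
  · intro h
    exact huv (congrArg Subtype.val h)

theorem mk_stage_le (hA : ∀ u v, u ≠ v → {w | A u w ∧ A v w}.Countable)
    {S : Set V} {μ : Cardinal.{u}} (hμ : ℵ₀ ≤ μ) (hS : #S ≤ μ) (n : ℕ) : #(stage A S n) ≤ μ := by
  induction n with
  | zero => exact hS
  | succ n ih =>
    refine (mk_union_le _ _).trans ((add_le_add ih ?_).trans (add_eq_self hμ).le)
    refine (mk_iUnion_le _).trans ?_
    have h1 : #((stage A S n) × (stage A S n)) ≤ μ := by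
      rw [mk_prod, lift_id]
      exact (mul_le_mul' ih ih).trans (mul_eq_self hμ).le
    have h2 : (⨆ p : (stage A S n) × (stage A S n),
        #({w | p.1 ≠ p.2 ∧ A p.1 w ∧ A p.2 w} : Set V)) ≤ μ := by
      apply ciSup_le'
      intro p
      refine le_trans ?_ hμ
      rw [le_aleph0_iff_set_countable]
      by_cases h : (p.1 : V) = p.2
      · refine (countable_empty).mono ?_
        rintro w ⟨hw, _⟩
        exact (hw (Subtype.ext h)).elim
      · refine (hA p.1 p.2 h).mono ?_
        rintro w ⟨_, hw⟩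
        exact hw
    exact (mul_le_mul' h1 h2).trans (mul_eq_self hμ).le

theorem mk_cl_le (hA : ∀ u v, u ≠ v → {w | A u w ∧ A v w}.Countable)
    {S : Set V} {μ : Cardinal.{u}} (hμ : ℵ₀ ≤ μ) (hS : #S ≤ μ) : #(cl A S) ≤ μ := by
  refine (mk_iUnion_le _).trans ?_
  have h1 : #(ULift.{u} ℕ) ≤ μ := by simpa using hμ
  have h2 : (⨆ n : ULift.{u} ℕ, #(stage A S n.down)) ≤ μ :=
    ciSup_le' fun n => mk_stage_le A hA hμ hS n.down
  exact (mul_le_mul' h1 h2).trans (mul_eq_self hμ).le

end

theorem good_of_countable {V : Type u} (A : V → V → Prop) [Countable V] : Good A := by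
  obtain ⟨e, he⟩ := exists_injective_nat V
  refine ⟨fun u v => e v ≤ e u, fun u v _ => le_total _ _, fun u => ?_⟩
  refine ((finite_Iic (e u)).preimage he.injOn).subset ?_
  rintro v ⟨_, hv⟩
  exact hv

theorem good_aux (κ : Cardinal.{u}) : ∀ (V : Type u) (A : V → V → Prop), #V = κ →
    (∀ u v, A u v → A v u) → (∀ u v, u ≠ v → {w | A u w ∧ A v w}.Countable) → Good A := by
  induction κ using WellFoundedLT.induction with
  | ind κ ih =>
  intro V A hV hs hA
  rcases le_or_gt (#V) ℵ₀ with hc | hc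
  · have : Countable V := by rwa [← mk_le_aleph0_iff]
    exact good_of_countable A
  · obtain ⟨lo, wo, hr⟩ := Cardinal.exists_ord_eq_type_lt V
    have hseg : ∀ a : V, #(Iic a) < #V := by
      intro a
      have h1 : #(Iio a) < #V := mk_Iio_lt a hr
      have h2 : (Iic a : Set V) ⊆ Iio a ∪ {a} := by
        intro x hx
        rcases lt_or_eq_of_le hx with h | h
        · exact Or.inl h
        · exact Or.inr h
      refine (mk_le_mk_of_subset h2).trans_lt ((mk_union_le _ _).trans_lt ?_)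
      refine add_lt_of_lt hc.le h1 ?_
      rw [mk_singleton]
      exact one_lt_aleph0.trans hc
    have hcl : ∀ a : V, #(cl A (Iic a)) < #V := by
      intro a
      refine (mk_cl_le A hA (le_max_right (#(Iic a)) ℵ₀) (le_max_left _ _)).trans_lt ?_
      exact max_lt (hseg a) hc
    have hne : ∀ x : V, {a | x ∈ cl A (Iic a)}.Nonempty :=
      fun x => ⟨x, subset_cl A _ (mem_Iic.2 le_rfl)⟩
    let ρ : V → V := fun x => WellFounded.min wellFounded_lt {a | x ∈ cl A (Iic a)} (hne x)
    have hρ1 : ∀ x, x ∈ cl A (Iic (ρ x)) := fun x => WellFounded.min_mem _ _ (hne x)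
    have hρ2 : ∀ x a, x ∈ cl A (Iic a) → ρ x ≤ a := fun x a h =>
      not_lt.1 (WellFounded.not_lt_min wellFounded_lt {a | x ∈ cl A (Iic a)} h)
    have hfib : ∀ a, #{x // ρ x = a} < #V := by
      intro a
      refine lt_of_le_of_lt (mk_le_mk_of_subset (s := {x | ρ x = a}) ?_) (hcl a)
      rintro x rfl
      exact hρ1 x
    have hO : ∀ a, Good (fun x y : {x // ρ x = a} => A x y) := by
      intro a
      refine ih _ (hV ▸ hfib a) _ _ rfl (fun u v h => hs _ _ h) ?_
      intro u v huv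
      exact (hA u v (fun h => huv (Subtype.ext h))).preimage Subtype.val_injective
    choose O hO1 hO2 using hO
    refine ⟨fun x y => ρ y < ρ x ∨ ∃ (a : V) (h : ρ x = a) (h' : ρ y = a),
      O a ⟨x, h⟩ ⟨y, h'⟩, ?_, ?_⟩
    · intro x y hxy
      rcases lt_trichotomy (ρ x) (ρ y) with h | h | h
      · exact Or.inr (Or.inl h)
      · rcases hO1 (ρ y) ⟨x, h⟩ ⟨y, rfl⟩ hxy with h1 | h1
        · exact Or.inl (Or.inr ⟨_, h, rfl, h1⟩)
        · exact Or.inr (Or.inr ⟨_, rfl, h, h1⟩)
      · exact Or.inl (Or.inl h)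
    · intro x
      have h1 : {y | A x y ∧ ρ y < ρ x}.Subsingleton := by
        rintro y ⟨hy1, hy2⟩ z ⟨hz1, hz2⟩
        by_contra hyz
        have hy3 : y ∈ cl A (Iic (max (ρ y) (ρ z))) :=
          cl_mono A (Iic_subset_Iic.2 (le_max_left _ _)) (hρ1 y)
        have hz3 : z ∈ cl A (Iic (max (ρ y) (ρ z))) :=
          cl_mono A (Iic_subset_Iic.2 (le_max_right _ _)) (hρ1 z)
        have := hρ2 x _ (cl_closed A _ hy3 hz3 hyz (hs _ _ hy1) (hs _ _ hz1))
        exact absurd (max_lt hy2 hz2) (not_lt.2 this)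
      have h2 := (hO2 (ρ x) ⟨x, rfl⟩).image Subtype.val
      refine (h1.finite.union h2).subset ?_
      rintro y ⟨hxy, h | ⟨a, h, h', h3⟩⟩
      · exact Or.inl ⟨hxy, h⟩
      · subst h
        exact Or.inr ⟨⟨y, h'⟩, ⟨hxy, h3⟩, rfl⟩

theorem good_of_countable_common {V : Type u} (A : V → V → Prop)
    (hs : ∀ u v, A u v → A v u) (hA : ∀ u v, u ≠ v → {w | A u w ∧ A v w}.Countable) : Good A :=
  good_aux _ V A rfl hs hA

end Pool.Agent.H170.NHN
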