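import Pool.Agent.H170.NHN.Cover

set_option autoImplicit false

/-!
Lines `g P h` in a group, for a subset `P` with controlled fusion.
-/

namespace Pool.Agent.H170.NHN

open Set MeasureTheory TopologicalSpace Function

universe u

section comb

variable {G : Type u} [Group G] {B : Type} (P : ℕ × B → G)

/-- the line `g Pₙ h` -/
def ln (n : ℕ) (g h : G) : Set G := {x | ∃ b, x = g * P (n, b) * h}

/-- incidence -/
def LInc (x : G) (l : ℕ × Set G) : Prop := x ∈ l.2 ∧ ∃ g h, l.2 = ln P l.1 g h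

/-- the incidence graph of points and lines -/
def LA : (G ⊕ (ℕ × Set G)) → (G ⊕ (ℕ × Set G)) → Prop
  | .inl x, .inr l => LInc P x l
  | .inr l, .inl x => LInc P x l
  | _, _ => False

theorem LA_symm (u v : G ⊕ (ℕ × Set G)) (h : LA P u v) : LA P v u := by
  rcases u with x | l <;> rcases v with y | m <;> exact h

/-- conjugate differences are equal or inverse -/
def H1 : Prop := ∀ (a b c d : ℕ × B) (z : G), a ≠ b → c ≠ d →
  z * (P a * (P b)⁻¹) * z⁻¹ = P c * (P d)⁻¹ → (c = a ∧ d = b) ∨ (c = b ∧ d = a)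

/-- the centralizer of a difference centralizes `P` -/
def H2 : Prop := ∀ (a b : ℕ × B) (z : G), a ≠ b →
  z * (P a * (P b)⁻¹) * z⁻¹ = P a * (P b)⁻¹ → ∀ c, z * P c = P c * z

theorem conj_eq {x y g h g' h' pa pb pc pd : G} (hx : x = g * pa * h) (hy : y = g * pb * h)
    (hx' : x = g' * pc * h') (hy' : y = g' * pd * h') :
    (g'⁻¹ * g) * (pa * pb⁻¹) * (g'⁻¹ * g)⁻¹ = pc * pd⁻¹ := by
  have e1 : x * y⁻¹ = g * (pa * pb⁻¹) * g⁻¹ := by rw [hx, hy]; group
  have e2 : x * y⁻¹ = g' * (pc * pd⁻¹) * g'⁻¹ := by rw [hx', hy']; group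
  have e3 : g * (pa * pb⁻¹) * g⁻¹ = g' * (pc * pd⁻¹) * g'⁻¹ := e1.symm.trans e2
  calc (g'⁻¹ * g) * (pa * pb⁻¹) * (g'⁻¹ * g)⁻¹ = g'⁻¹ * (g * (pa * pb⁻¹) * g⁻¹) * g' := by group
    _ = g'⁻¹ * (g' * (pc * pd⁻¹) * g'⁻¹) * g' := by rw [e3]
    _ = pc * pd⁻¹ := by group

theorem same_line (h2 : H2 P) {x y g h g' h' : G} {a b : ℕ × B} (hab : a ≠ b)
    (hx : x = g * P a * h) (hy : y = g * P b * h)
    (hx' : x = g' * P a * h') (hy' : y = g' * P b * h') (c : ℕ × B) :
    g * P c * h = g' * P c * h' := by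
  have hz := h2 a b (g'⁻¹ * g) hab (conj_eq hx hy hx' hy')
  have e1 : g * P a * h = g' * P a * h' := hx.symm.trans hx'
  have e2 : (g'⁻¹ * g) * P a * h = P a * h' := by
    calc (g'⁻¹ * g) * P a * h = g'⁻¹ * (g * P a * h) := by group
      _ = g'⁻¹ * (g' * P a * h') := by rw [e1]
      _ = P a * h' := by group
  have e3 : (g'⁻¹ * g) * h = h' := by
    rw [hz a, mul_assoc] at e2
    exact mul_left_cancel e2
  calc g * P c * h = g' * ((g'⁻¹ * g) * P c) * h := by group
    _ = g' * (P c * (g'⁻¹ * g)) * h := by rw [hz c]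
    _ = g' * P c * ((g'⁻¹ * g) * h) := by group
    _ = g' * P c * h' := by rw [e3]

theorem LA_common (h1 : H1 P) (h2 : H2 P)
    (u v : G ⊕ (ℕ × Set G)) (huv : u ≠ v) : {w | LA P u w ∧ LA P v w}.Countable := by
  rcases u with x | ⟨n, X⟩ <;> rcases v with y | ⟨m, Y⟩
  · have hxy : x ≠ y := fun h => huv (by rw [h])
    -- lines through x and y at given parameters
    let T : (ℕ × B) → (ℕ × B) → Set (G ⊕ (ℕ × Set G)) := fun a b =>
      {w | ∃ g h, w = .inr (a.1, ln P a.1 g h) ∧ x = g * P a * h ∧ y = g * P b * h}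
    have hT : ∀ a b, a ≠ b → (T a b).Subsingleton := by
      rintro a b hab w ⟨g, h, hw, hx, hy⟩ w' ⟨g', h', hw', hx', hy'⟩
      rw [hw, hw']
      have : ln P a.1 g h = ln P a.1 g' h' := by
        ext z
        constructor
        · rintro ⟨c, hc⟩
          exact ⟨c, by rw [hc]; exact same_line P h2 hab hx hy hx' hy' _⟩
        · rintro ⟨c, hc⟩
          exact ⟨c, by rw [hc]; exact (same_line P h2 hab hx hy hx' hy' _).symm⟩
      rw [this]
    by_cases hne : ∃ a0 b0, a0 ≠ b0 ∧ ∃ g h, x = g * P a0 * h ∧ y = g * P b0 * h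
    · obtain ⟨a0, b0, hab0, g0, k0, hx0, hy0⟩ := hne
      refine (((hT a0 b0 hab0).finite.union (hT b0 a0 hab0.symm).finite).countable).mono ?_
      rintro w ⟨hw1, hw2⟩
      rcases w with _ | ⟨n, X⟩
      · exact hw1.elim
      obtain ⟨hxX, g, h, hX⟩ := hw1
      obtain ⟨hyX, _⟩ := hw2
      simp only at hxX hX hyX
      rw [hX] at hxX hyX
      obtain ⟨b, hb⟩ := hxX
      obtain ⟨b', hb'⟩ := hyX
      have hne' : (n, b) ≠ (n, b') := by
        intro he; apply hxy; rw [hb, hb', he]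
      rcases h1 a0 b0 (n, b) (n, b') (g⁻¹ * g0) hab0 hne' (conj_eq hx0 hy0 hb hb') with
        ⟨e1, e2⟩ | ⟨e1, e2⟩
      · left
        refine ⟨g, h, ?_, ?_, ?_⟩
        · rw [hX, ← e1]
        · rw [← e1]; exact hb
        · rw [← e2]; exact hb'
      · right
        refine ⟨g, h, ?_, ?_, ?_⟩
        · rw [hX, ← e1]
        · rw [← e1]; exact hb
        · rw [← e2]; exact hb'
    · refine (countable_empty).mono ?_
      rintro w ⟨hw1, hw2⟩
      rcases w with _ | ⟨n, X⟩
      · exact hw1.elim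
      obtain ⟨hxX, g, h, hX⟩ := hw1
      obtain ⟨hyX, _⟩ := hw2
      simp only at hxX hX hyX
      rw [hX] at hxX hyX
      obtain ⟨b, hb⟩ := hxX
      obtain ⟨b', hb'⟩ := hyX
      have hne' : (n, b) ≠ (n, b') := by
        intro he; apply hxy; rw [hb, hb', he]
      exact hne ⟨_, _, hne', g, h, hb, hb'⟩
  · refine (countable_empty).mono ?_
    rintro (w | w) ⟨e1, e2⟩
    · exact e1
    · exact e2
  · refine (countable_empty).mono ?_
    rintro (w | w) ⟨e1, e2⟩
    · exact e2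
    · exact e1
  · by_cases hne : ∃ w, LA P (.inr (n, X)) w ∧ LA P (.inr (m, Y)) w
    · obtain ⟨w0, hw1, hw2⟩ := hne
      rcases w0 with x0 | _
      swap
      · exact hw1.elim
      obtain ⟨hx0, g, h, hX⟩ := hw1
      obtain ⟨hy0, g', h', hY⟩ := hw2
      simp only at hx0 hX hy0 hY
      rw [hX] at hx0
      rw [hY] at hy0
      obtain ⟨b0, hb0⟩ := hx0
      obtain ⟨d0, hd0⟩ := hy0
      refine ((Set.toFinite {Sum.inl x0, Sum.inl (g * P (m, d0) * h)}).countable).mono ?_
      rintro w ⟨hw1, hw2⟩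
      rcases w with x | _
      swap
      · exact hw1.elim
      by_cases hxx : x = x0
      · left; rw [hxx]
      right
      obtain ⟨hx1, _⟩ := hw1
      obtain ⟨hx2, _⟩ := hw2
      simp only at hx1 hx2
      rw [hX] at hx1
      rw [hY] at hx2
      obtain ⟨b, hb⟩ := hx1
      obtain ⟨d, hd⟩ := hx2
      have n1 : (n, b) ≠ (n, b0) := by
        intro he; apply hxx; rw [hb, hb0, he]
      have n2 : (m, d) ≠ (m, d0) := by
        intro he; apply hxx; rw [hd, hd0, he]
      rcases h1 (n, b) (n, b0) (m, d) (m, d0) (g'⁻¹ * g) n1 n2 (conj_eq hb hb0 hd hd0) with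
        ⟨e1, e2⟩ | ⟨e1, e2⟩
      · exfalso
        apply huv
        have hmn : m = n := congrArg Prod.fst e1
        have key : ∀ c, g * P c * h = g' * P c * h' := by
          intro c
          refine same_line P h2 n1 hb hb0 ?_ ?_ c
          · rw [← e1]; exact hd
          · rw [← e2]; exact hd0
        rw [hX, hY, hmn]
        have : ln P n g h = ln P n g' h' := by
          ext z
          constructor
          · rintro ⟨c, hc⟩
            exact ⟨c, by rw [hc]; exact key _⟩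
          · rintro ⟨c, hc⟩
            exact ⟨c, by rw [hc]; exact (key _).symm⟩
        rw [this]
      · rw [mem_singleton_iff, e2, ← hb]
    · refine (countable_empty).mono ?_
      intro w hw
      exact hne ⟨w, hw⟩

theorem exists_coloringL (h1 : H1 P) (h2 : H2 P) :
    ∃ c : G → ℕ, ∀ (n : ℕ) (g h : G), {x | c x = n ∧ ∃ b, x = g * P (n, b) * h}.Finite := by
  obtain ⟨O, hO1, hO2⟩ := good_of_countable_common (LA P) (LA_symm P) (LA_common P h1 h2)
  have hK : ∀ x : G, ∃ n : ℕ, ¬ ∃ t, LA P (.inl x) (.inr (n, t)) ∧ O (.inl x) (.inr (n, t)) := by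
    intro x
    have hfin : {n : ℕ | ∃ t, LA P (.inl x) (.inr (n, t)) ∧ O (.inl x) (.inr (n, t))}.Finite := by
      refine ((hO2 (.inl x)).image (fun v => Sum.elim (fun _ => 0) (fun l => l.1) v)).subset ?_
      rintro n ⟨t, h1, h2⟩
      exact ⟨.inr (n, t), ⟨h1, h2⟩, rfl⟩
    exact hfin.exists_notMem
  choose c hcx using hK
  refine ⟨c, fun n g h => ?_⟩
  refine ((hO2 (.inr (n, ln P n g h))).preimage (Sum.inl_injective.injOn)).subset ?_
  rintro x ⟨rfl, hb⟩
  have hA : LA P (.inl x) (.inr (c x, ln P (c x) g h)) := ⟨hb, g, h, rfl⟩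
  rcases hO1 _ _ hA with h | h
  · exact (hcx x ⟨_, hA, h⟩).elim
  · exact ⟨hA, h⟩

end comb

end Pool.Agent.H170.NHN
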