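import Pool.Agent.H170.NHN.Myc4N
import Pool.Agent.H170.NHN.Fusion

set_option autoImplicit false

/-!
A Cantor set in a closed subgroup with controlled fusion, and the resulting cover.
-/

namespace Pool.Agent.H170.NHN

open Set MeasureTheory TopologicalSpace Function

universe u

section generic

variable {A : Type u} [Group A] [TopologicalSpace A] [IsTopologicalGroup A] [PolishSpace A]

theorem dense_ne [Uncountable A] (c : A) : Dense {z : A | z ≠ c} := by
  have hun : Uncountable (A ⧸ (⊥ : Subgroup A)) :=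
    (QuotientGroup.quotientBot (G := A)).toEquiv.symm.injective.uncountable
  have h1 := dense_compl (⊥ : Subgroup A) hun
  have h2 := h1.preimage (Homeomorph.mulRight c⁻¹).isOpenMap
  refine h2.mono ?_
  intro z hz hzc
  apply hz
  change z * c⁻¹ ∈ ((⊥ : Subgroup A) : Set A)
  rw [hzc]
  simp

theorem avoid [Uncountable A] (j : Fin 4) (φ : (Fin 4 → A) → A) (hφ : Continuous φ)
    (hind : ∀ y z, φ (Function.update y j z) = φ y) :
    IsOpen {y : Fin 4 → A | y j ≠ φ y} ∧ Dense {y : Fin 4 → A | y j ≠ φ y} := by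
  refine ⟨isOpen_ne_fun (continuous_apply j) hφ, fun y => ?_⟩
  have hcont : Continuous (fun z : A => Function.update y j z) :=
    continuous_const.update j continuous_id
  have hy : y = Function.update y j (y j) := (Function.update_eq_self j y).symm
  rw [hy]
  refine map_mem_closure hcont (dense_ne (φ y) (y j)) ?_
  intro z hz
  change (Function.update y j z) j ≠ φ (Function.update y j z)
  rw [hind, Function.update_self]
  exact hz

/-- the perturbed coordinate -/
def jj : Fin 7 → Fin 4 := ![2, 3, 3, 2, 2, 0, 0]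

/-- the value to be avoided -/
def ff (γ : A → A) (d : A) : Fin 7 → (Fin 4 → A) → A :=
  ![fun y => γ (y 0 * (y 1)⁻¹) * y 3,
    fun y => (γ (y 0 * (y 1)⁻¹))⁻¹ * y 0,
    fun y => (γ (y 0 * (y 1)⁻¹))⁻¹ * y 1,
    fun y => γ (y 0 * (y 1)⁻¹) * y 0,
    fun y => γ (y 0 * (y 1)⁻¹) * y 1,
    fun y => d * y 1,
    fun y => y 1]

theorem exists_gen [Uncountable A] (γ : ℕ → A → A) (hγ : ∀ i, Continuous (γ i)) (d : ℕ → A) :
    ∃ h : (ℕ → Bool) → A, Continuous h ∧
      ∀ b : Fin 4 → ℕ → Bool, Injective b → ∀ (i : ℕ) (k : Fin 7),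
        h (b (jj k)) ≠ ff (γ i) (d i) k (fun j => h (b j)) := by
  have hkey : ∀ p : ℕ × Fin 7, IsOpen {y : Fin 4 → A | y (jj p.2) ≠ ff (γ p.1) (d p.1) p.2 y} ∧
      Dense {y : Fin 4 → A | y (jj p.2) ≠ ff (γ p.1) (d p.1) p.2 y} := by
    rintro ⟨i, k⟩
    have hg := hγ i
    apply avoid
    · have c1 : Continuous (fun y : Fin 4 → A => γ i (y 0 * (y 1)⁻¹)) :=
        hg.comp ((continuous_apply 0).mul (continuous_apply 1).inv)
      fin_cases k
      · exact c1.mul (continuous_apply 3)
      · exact c1.inv.mul (continuous_apply 0)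
      · exact c1.inv.mul (continuous_apply 1)
      · exact c1.mul (continuous_apply 0)
      · exact c1.mul (continuous_apply 1)
      · exact continuous_const.mul (continuous_apply 1)
      · exact continuous_apply 1
    · intro y z
      fin_cases k <;> simp [ff, jj, Function.update]
  have : Nonempty A := ⟨1⟩
  obtain ⟨h, h1, h2⟩ := mycielski4N'
    (fun p : ℕ × Fin 7 => {y : Fin 4 → A | y (jj p.2) ≠ ff (γ p.1) (d p.1) p.2 y})
    (fun p => (hkey p).1) (fun p => (hkey p).2)
  exact ⟨h, h1, fun b hb i k => h2 b hb (i, k)⟩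

end generic

/-- The cover of a Polish group with a closed uncountable subgroup with controlled fusion. -/
theorem coverF {G : Type u} [Group G] [TopologicalSpace G] [IsTopologicalGroup G] [PolishSpace G]
    [MeasurableSpace G] [BorelSpace G] (A : Subgroup G) (hA : IsClosed (A : Set G))
    (hunc : Uncountable A) (D : Set G) (hD : D.Countable) (γ : ℕ → A → A)
    (hγ : ∀ i, Continuous (γ i))
    (hfus : ∀ a : A, (a : G) ∉ D → ∀ z : G, z * a * z⁻¹ ∈ A → ∃ i, z * a * z⁻¹ = (γ i a : G))
    (hcen : ∀ a : A, (a : G) ∉ D → ∀ z : G, z * a * z⁻¹ = (a : G) → ∀ c : A, z * c = c * z) :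
    ∃ S : ℕ → Set G, (∀ n, NaivelyHaarNull (S n)) ∧ Pairwise (Disjoint on S) ∧
      ⋃ n, S n = univ := by
  have : PolishSpace A := hA.polishSpace
  obtain ⟨d, hd⟩ : ∃ d : ℕ → A, ∀ a : A, (a : G) ∈ D → ∃ i, a = d i := by
    have hD' : (((↑) : A → G) ⁻¹' D).Countable := hD.preimage Subtype.val_injective
    rcases (((↑) : A → G) ⁻¹' D).eq_empty_or_nonempty with h | h
    · refine ⟨fun _ => 1, fun a ha => ?_⟩
      have : a ∈ ((↑) : A → G) ⁻¹' D := ha
      rw [h] at this
      exact this.elim
    · obtain ⟨d, hd⟩ := hD'.exists_eq_range h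
      refine ⟨d, fun a ha => ?_⟩
      have : a ∈ ((↑) : A → G) ⁻¹' D := ha
      rw [hd] at this
      obtain ⟨i, hi⟩ := this
      exact ⟨i, hi.symm⟩
  obtain ⟨h, hcont, hgen⟩ := exists_gen γ hγ d
  have hfresh : ∀ s : Finset (ℕ → Bool), ∃ c, c ∉ s := fun s => Infinite.exists_notMem_finset s
  -- pairs
  have hpair : ∀ a b : ℕ → Bool, a ≠ b → h a ≠ h b ∧ ∀ i, h a ≠ d i * h b := by
    intro a b h1
    classical
    obtain ⟨c, hc⟩ := hfresh {a, b}
    simp only [Finset.mem_insert, Finset.mem_singleton, not_or] at hc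
    obtain ⟨e, he⟩ := hfresh {a, b, c}
    simp only [Finset.mem_insert, Finset.mem_singleton, not_or] at he
    have hinj := inj4 h1 (Ne.symm hc.1) (Ne.symm he.1) (Ne.symm hc.2) (Ne.symm he.2.1)
      (Ne.symm he.2.2)
    exact ⟨hgen _ hinj 0 6, fun i => hgen _ hinj i 5⟩
  have hndD : ∀ a b : ℕ → Bool, a ≠ b → ((h a * (h b)⁻¹ : A) : G) ∉ D := by
    intro a b hab hmem
    obtain ⟨i, hi⟩ := hd _ hmem
    exact (hpair a b hab).2 i (by rw [← hi]; group)
  have hfus' : ∀ a b c e : ℕ → Bool, a ≠ b → c ≠ e → ∀ i,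
      γ i (h a * (h b)⁻¹) = h c * (h e)⁻¹ → (c = a ∧ e = b) ∨ (c = b ∧ e = a) := by
    intro a b c e hab hce i heq
    have e1 : h c = γ i (h a * (h b)⁻¹) * h e := by rw [heq]; group
    have e2 : h e = (γ i (h a * (h b)⁻¹))⁻¹ * h c := by rw [heq]; group
    classical
    by_cases hca : c = a
    · subst hca
      by_cases heb : e = b
      · exact Or.inl ⟨rfl, heb⟩
      · exfalso
        obtain ⟨f, hf⟩ := hfresh {c, b, e}
        simp only [Finset.mem_insert, Finset.mem_singleton, not_or] at hf
        exact hgen _ (inj4 hab (Ne.symm hf.1) hce (Ne.symm hf.2.1) (Ne.symm heb) hf.2.2) i 1 e2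
    · by_cases hcb : c = b
      · subst hcb
        by_cases hea : e = a
        · exact Or.inr ⟨rfl, hea⟩
        · exfalso
          obtain ⟨f, hf⟩ := hfresh {a, c, e}
          simp only [Finset.mem_insert, Finset.mem_singleton, not_or] at hf
          exact hgen _ (inj4 hab (Ne.symm hf.1) (Ne.symm hea) (Ne.symm hf.2.1) hce hf.2.2) i 2 e2
      · exfalso
        by_cases hea : e = a
        · subst hea
          obtain ⟨f, hf⟩ := hfresh {e, b, c}
          simp only [Finset.mem_insert, Finset.mem_singleton, not_or] at hf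
          exact hgen _ (inj4 hab (Ne.symm hca) (Ne.symm hf.1) (Ne.symm hcb) (Ne.symm hf.2.1)
            (Ne.symm hf.2.2)) i 3 e1
        · by_cases heb : e = b
          · subst heb
            obtain ⟨f, hf⟩ := hfresh {a, e, c}
            simp only [Finset.mem_insert, Finset.mem_singleton, not_or] at hf
            exact hgen _ (inj4 hab (Ne.symm hca) (Ne.symm hf.1) (Ne.symm hcb) (Ne.symm hf.2.1)
              (Ne.symm hf.2.2)) i 4 e1
          · exact hgen _ (inj4 hab (Ne.symm hca) (Ne.symm hea) (Ne.symm hcb) (Ne.symm heb) hce)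
              i 0 e1
  let P : ℕ × (ℕ → Bool) → G := fun a => (h (code a) : G)
  have hPinj : Injective P := by
    intro a b hab
    by_contra hne
    exact (hpair _ _ (code_injective.ne hne)).1 (Subtype.ext hab)
  have H1' : H1 P := by
    intro a b c e z hab hce heq
    have hmem : z * ((h (code a) * (h (code b))⁻¹ : A) : G) * z⁻¹ ∈ A := by
      change z * (P a * (P b)⁻¹) * z⁻¹ ∈ A
      rw [heq]
      exact A.mul_mem (h (code c)).2 (A.inv_mem (h (code e)).2)
    obtain ⟨i, hi⟩ := hfus _ (hndD _ _ (code_injective.ne hab)) z hmem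
    have h2 : γ i (h (code a) * (h (code b))⁻¹) = h (code c) * (h (code e))⁻¹ :=
      Subtype.ext (hi.symm.trans heq)
    rcases hfus' _ _ _ _ (code_injective.ne hab) (code_injective.ne hce) i h2 with
      ⟨h3, h4⟩ | ⟨h3, h4⟩
    · exact Or.inl ⟨code_injective h3, code_injective h4⟩
    · exact Or.inr ⟨code_injective h3, code_injective h4⟩
  have H2' : H2 P := by
    intro a b z hab heq c
    exact hcen (h (code a) * (h (code b))⁻¹) (hndD _ _ (code_injective.ne hab)) z heq
      (h (code c))
  obtain ⟨c, hcfin⟩ := exists_coloringL P H1' H2'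
  refine ⟨fun n => {x | c x = n}, ?_, ?_, ?_⟩
  · intro n
    have hunc' : Uncountable (ℕ → Bool) := by
      rw [← Cardinal.aleph0_lt_mk_iff]
      simpa using Cardinal.cantor Cardinal.aleph0
    let e : ℝ ≃ᵐ (ℕ → Bool) := PolishSpace.measurableEquivOfNotCountable
      (not_countable_iff.2 inferInstance) (not_countable_iff.2 inferInstance)
    let f : ℝ → G := fun r => P (n, e r)
    have hfm : Measurable f := by
      have h1 : Continuous (fun b : ℕ → Bool => (h (code (n, b)) : G)) :=
        continuous_subtype_val.comp (hcont.comp (continuous_code n))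
      exact h1.measurable.comp e.measurable
    have hfi : Injective f := by
      intro r s hrs
      have h2 := hPinj hrs
      rw [Prod.mk.injEq] at h2
      exact e.injective h2.2
    have hemb : MeasurableEmbedding f := hfm.measurableEmbedding hfi
    have hprob : IsProbabilityMeasure (volume.restrict (Icc (0 : ℝ) 1)) := ⟨by simp⟩
    refine ⟨(volume.restrict (Icc (0 : ℝ) 1)).map f,
      Measure.isProbabilityMeasure_map hfm.aemeasurable, fun g k => ?_⟩
    rw [hemb.map_apply]
    apply Set.Countable.measure_zero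
    apply Set.Finite.countable
    have hφ : Injective (fun r : ℝ => g⁻¹ * f r * k⁻¹) := by
      intro r s hrs
      exact hfi (mul_left_cancel (mul_right_cancel hrs))
    refine ((hcfin n g⁻¹ k⁻¹).preimage hφ.injOn).subset ?_
    rintro r ⟨x, hx, hxr⟩
    have hxr' : g * x * k = f r := hxr
    have h1 : g⁻¹ * f r * k⁻¹ = x := by rw [← hxr']; group
    refine ⟨?_, e r, rfl⟩
    change c (g⁻¹ * f r * k⁻¹) = n
    rw [h1]
    exact hx
  · intro n m hnm
    rw [Function.onFun, Set.disjoint_left]
    rintro x hx hx'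
    exact hnm (hx.symm.trans hx')
  · exact eq_univ_of_forall fun x => mem_iUnion.2 ⟨c x, rfl⟩

end Pool.Agent.H170.NHN
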