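import Pool.Agent.H170.NHN.Gen

set_option autoImplicit false

/-!
The cover for a closed subgroup with controlled fusion modulo a closed normal subgroup.
-/

namespace Pool.Agent.H170.NHN

open Set MeasureTheory TopologicalSpace Function

universe u

section generic

variable {M : Type u} [Group M] [TopologicalSpace M] [IsTopologicalGroup M] [PolishSpace M]

theorem avoidN (N : Subgroup M) (hcl : IsClosed (N : Set M)) (hun : Uncountable (M ⧸ N))
    (j : Fin 4) (φ : (Fin 4 → M) → M) (hφ : Continuous φ)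
    (hind : ∀ y z, φ (Function.update y j z) = φ y) :
    IsOpen {y : Fin 4 → M | y j * (φ y)⁻¹ ∉ N} ∧ Dense {y : Fin 4 → M | y j * (φ y)⁻¹ ∉ N} := by
  have hNo : IsOpen ((N : Set M)ᶜ) := hcl.isOpen_compl
  refine ⟨hNo.preimage ((continuous_apply j).mul hφ.inv), fun y => ?_⟩
  have hd : Dense {z : M | z * (φ y)⁻¹ ∉ N} :=
    (dense_compl N hun).preimage (Homeomorph.mulRight (φ y)⁻¹).isOpenMap
  have hcont : Continuous (fun z : M => Function.update y j z) :=
    continuous_const.update j continuous_id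
  have hy : y = Function.update y j (y j) := (Function.update_eq_self j y).symm
  rw [hy]
  refine map_mem_closure hcont (hd (y j)) ?_
  intro z hz
  change (Function.update y j z) j * (φ (Function.update y j z))⁻¹ ∉ N
  rw [hind, Function.update_self]
  exact hz

theorem exists_genN (N : Subgroup M) (hcl : IsClosed (N : Set M)) (hun : Uncountable (M ⧸ N))
    (γ : ℕ → M → M) (hγ : ∀ i, Continuous (γ i)) (d : ℕ → M) :
    ∃ h : (ℕ → Bool) → M, Continuous h ∧
      ∀ b : Fin 4 → ℕ → Bool, Injective b → ∀ (i : ℕ) (k : Fin 7),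
        h (b (jj k)) * (ff (γ i) (d i) k (fun j => h (b j)))⁻¹ ∉ N := by
  have hkey : ∀ p : ℕ × Fin 7,
      IsOpen {y : Fin 4 → M | y (jj p.2) * (ff (γ p.1) (d p.1) p.2 y)⁻¹ ∉ N} ∧
      Dense {y : Fin 4 → M | y (jj p.2) * (ff (γ p.1) (d p.1) p.2 y)⁻¹ ∉ N} := by
    rintro ⟨i, k⟩
    have hg := hγ i
    apply avoidN N hcl hun
    · have c1 : Continuous (fun y : Fin 4 → M => γ i (y 0 * (y 1)⁻¹)) :=
        hg.comp ((continuous_apply 0).mul (continuous_apply 1).inv)
      fin_cases k
      · exact c1.mul (continuous_apply 3)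
      · exact c1.inv.mul (continuous_apply 0)
      · exact c1.inv.mul (continuous_apply 1)
      · exact c1.mul (continuous_apply 0)
      · exact c1.mul (continuous_apply 1)
      · exact continuous_const.mul (continuous_apply 1)
      · exact continuous_apply 1
    · intro y z
      fin_cases k <;> simp [ff, jj, Function.update]
  have : Nonempty M := ⟨1⟩
  obtain ⟨h, h1, h2⟩ := mycielski4N'
    (fun p : ℕ × Fin 7 => {y : Fin 4 → M | y (jj p.2) * (ff (γ p.1) (d p.1) p.2 y)⁻¹ ∉ N})
    (fun p => (hkey p).1) (fun p => (hkey p).2)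
  exact ⟨h, h1, fun b hb i k => h2 b hb (i, k)⟩

end generic

/-- The cover of a Polish group with a closed subgroup with controlled fusion modulo a closed
normal subgroup. -/
theorem coverFN {G : Type u} [Group G] [TopologicalSpace G] [IsTopologicalGroup G] [PolishSpace G]
    [MeasurableSpace G] [BorelSpace G] (N M : Subgroup G) (hn : N.Normal)
    (hN : IsClosed (N : Set G)) (hM : IsClosed (M : Set G))
    (hun : Uncountable (M ⧸ N.subgroupOf M)) (D : Set G) (hD : D.Countable) (γ : ℕ → M → M)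
    (hγ : ∀ i, Continuous (γ i))
    (hfus : ∀ a : M, (∀ e ∈ D, (a : G) * e⁻¹ ∉ N) → ∀ (z : G) (m : M),
      z * a * z⁻¹ * (m : G)⁻¹ ∈ N → ∃ i, z * a * z⁻¹ * (γ i a : G)⁻¹ ∈ N)
    (hcen : ∀ a : M, (∀ e ∈ D, (a : G) * e⁻¹ ∉ N) → ∀ z : G,
      z * a * z⁻¹ * (a : G)⁻¹ ∈ N → ∀ c : M, z * c * z⁻¹ * (c : G)⁻¹ ∈ N) :
    ∃ S : ℕ → Set G, (∀ n, NaivelyHaarNull (S n)) ∧ Pairwise (Disjoint on S) ∧
      ⋃ n, S n = univ := by
  classical
  have : PolishSpace M := hM.polishSpace
  let q : G →* G ⧸ N := QuotientGroup.mk' N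
  have hq : ∀ x : G, q x = 1 ↔ x ∈ N := fun x => QuotientGroup.eq_one_iff x
  have hqe : ∀ x y : G, q x = q y ↔ x * y⁻¹ ∈ N := by
    intro x y
    rw [← hq, map_mul, map_inv, mul_inv_eq_one]
  obtain ⟨d0, hd0⟩ : ∃ d : ℕ → G, D ⊆ range d := by
    rcases D.eq_empty_or_nonempty with h | h
    · exact ⟨fun _ => 1, by simp [h]⟩
    · obtain ⟨d, hd⟩ := hD.exists_eq_range h
      exact ⟨d, hd.subset⟩
  let d : ℕ → M := fun i => if h : ∃ m : M, q m = q (d0 i) then h.choose else 1
  have hd : ∀ a : M, (∃ e ∈ D, (a : G) * e⁻¹ ∈ N) → ∃ i, q a = q (d i) := by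
    rintro a ⟨e, he, hae⟩
    obtain ⟨i, rfl⟩ := hd0 he
    have h1 : ∃ m : M, q m = q (d0 i) := ⟨a, (hqe _ _).2 hae⟩
    refine ⟨i, ?_⟩
    have h2 : d i = h1.choose := dif_pos h1
    rw [h2, h1.choose_spec]
    exact (hqe _ _).2 hae
  have hclN : IsClosed ((N.subgroupOf M : Subgroup M) : Set M) :=
    hN.preimage continuous_subtype_val
  obtain ⟨h, hcont, hgen0⟩ := exists_genN (N.subgroupOf M) hclN hun γ hγ d
  have hgen : ∀ b : Fin 4 → ℕ → Bool, Injective b → ∀ (i : ℕ) (k : Fin 7),
      q (h (b (jj k))) ≠ q (ff (γ i) (d i) k (fun j => h (b j)) : M) := by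
    intro b hb i k heq
    apply hgen0 b hb i k
    rw [Subgroup.mem_subgroupOf]
    exact (hqe _ _).1 heq
  have hfresh : ∀ s : Finset (ℕ → Bool), ∃ c, c ∉ s := fun s => Infinite.exists_notMem_finset s
  -- pairs
  have hpair : ∀ a b : ℕ → Bool, a ≠ b → q (h a) ≠ q (h b) ∧
      ∀ i, q (h a) ≠ q ((d i * h b : M) : G) := by
    intro a b h1
    obtain ⟨c, hc⟩ := hfresh {a, b}
    simp only [Finset.mem_insert, Finset.mem_singleton, not_or] at hc
    obtain ⟨e, he⟩ := hfresh {a, b, c}
    simp only [Finset.mem_insert, Finset.mem_singleton, not_or] at he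
    have hinj := inj4 h1 (Ne.symm hc.1) (Ne.symm he.1) (Ne.symm hc.2) (Ne.symm he.2.1)
      (Ne.symm he.2.2)
    exact ⟨hgen _ hinj 0 6, fun i => hgen _ hinj i 5⟩
  have hndD : ∀ a b : ℕ → Bool, a ≠ b → ∀ e ∈ D, ((h a * (h b)⁻¹ : M) : G) * e⁻¹ ∉ N := by
    intro a b hab e he hmem
    obtain ⟨i, hi⟩ := hd _ ⟨e, he, hmem⟩
    apply (hpair a b hab).2 i
    have : q ((h a : G) * (h b : G)⁻¹) = q (d i) := hi
    rw [map_mul, map_inv] at this
    have h2 : q ((d i * h b : M) : G) = q (d i) * q (h b) := map_mul q _ _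
    rw [h2, ← this]
    group
  have hfus' : ∀ a b c e : ℕ → Bool, a ≠ b → c ≠ e → ∀ i,
      q (γ i (h a * (h b)⁻¹) : M) = q (h c) * (q (h e))⁻¹ →
      (c = a ∧ e = b) ∨ (c = b ∧ e = a) := by
    intro a b c e hab hce i heq
    have e1 : q (h c) = q ((γ i (h a * (h b)⁻¹) * h e : M) : G) := by
      have h2 : q ((γ i (h a * (h b)⁻¹) * h e : M) : G) =
        q (γ i (h a * (h b)⁻¹) : M) * q (h e) := map_mul q _ _
      rw [h2, heq]; group
    have e2 : q (h e) = q (((γ i (h a * (h b)⁻¹))⁻¹ * h c : M) : G) := by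
      have h2 : q (((γ i (h a * (h b)⁻¹))⁻¹ * h c : M) : G) =
        (q (γ i (h a * (h b)⁻¹) : M))⁻¹ * q (h c) := by
        change q (((γ i (h a * (h b)⁻¹) : M) : G)⁻¹ * (h c : G)) = _
        rw [map_mul, map_inv]
      rw [h2, heq]; group
    by_cases hca : c = a
    · subst hca
      by_cases heb : e = b
      · exact Or.inl ⟨rfl, heb⟩
      · exfalso
        obtain ⟨f, hf⟩ := hfresh {c, b, e}
        simp only [Finset.mem_insert, Finset.mem_singleton, not_or] at hf
        exact hgen _ (inj4 hab (Ne.symm hf.1) hce (Ne.symm hf.2.1) (Ne.symm heb) hf.2.2) i 1 e2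
    · by_cases hcb : c = b
      · subst hcb
        by_cases hea : e = a
        · exact Or.inr ⟨rfl, hea⟩
        · exfalso
          obtain ⟨f, hf⟩ := hfresh {a, c, e}
          simp only [Finset.mem_insert, Finset.mem_singleton, not_or] at hf
          exact hgen _ (inj4 hab (Ne.symm hf.1) (Ne.symm hea) (Ne.symm hf.2.1) hce hf.2.2) i 2 e2
      · exfalso
        by_cases hea : e = a
        · subst hea
          obtain ⟨f, hf⟩ := hfresh {e, b, c}
          simp only [Finset.mem_insert, Finset.mem_singleton, not_or] at hf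
          exact hgen _ (inj4 hab (Ne.symm hca) (Ne.symm hf.1) (Ne.symm hcb) (Ne.symm hf.2.1)
            (Ne.symm hf.2.2)) i 3 e1
        · by_cases heb : e = b
          · subst heb
            obtain ⟨f, hf⟩ := hfresh {a, e, c}
            simp only [Finset.mem_insert, Finset.mem_singleton, not_or] at hf
            exact hgen _ (inj4 hab (Ne.symm hca) (Ne.symm hf.1) (Ne.symm hcb) (Ne.symm hf.2.1)
              (Ne.symm hf.2.2)) i 4 e1
          · exact hgen _ (inj4 hab (Ne.symm hca) (Ne.symm hea) (Ne.symm hcb) (Ne.symm heb) hce)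
              i 0 e1
  let P : ℕ × (ℕ → Bool) → G ⧸ N := fun a => q (h (code a))
  have hPinj : Injective P := by
    intro a b hab
    by_contra hne
    exact (hpair _ _ (code_injective.ne hne)).1 hab
  have hPdiff : ∀ a b, P a * (P b)⁻¹ = q ((h (code a) * (h (code b))⁻¹ : M) : G) := by
    intro a b
    change q (h (code a)) * (q (h (code b)))⁻¹ = q ((h (code a) : G) * (h (code b) : G)⁻¹)
    rw [map_mul, map_inv]
  have H1' : H1 P := by
    intro a b c e z hab hce heq
    obtain ⟨z, rfl⟩ := QuotientGroup.mk'_surjective N z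
    change q z * (P a * (P b)⁻¹) * (q z)⁻¹ = P c * (P e)⁻¹ at heq
    rw [hPdiff, hPdiff] at heq
    have hmem : z * ((h (code a) * (h (code b))⁻¹ : M) : G) * z⁻¹ *
        ((h (code c) * (h (code e))⁻¹ : M) : G)⁻¹ ∈ N := by
      rw [← hqe, map_mul, map_mul, map_inv]
      exact heq
    obtain ⟨i, hi⟩ := hfus _ (hndD _ _ (code_injective.ne hab)) z _ hmem
    rw [← hqe, map_mul, map_mul, map_inv] at hi
    have h2 : q (γ i (h (code a) * (h (code b))⁻¹) : M) = q (h (code c)) * (q (h (code e)))⁻¹ := by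
      rw [← hi, heq, ← hPdiff]
    rcases hfus' _ _ _ _ (code_injective.ne hab) (code_injective.ne hce) i h2 with
      ⟨h3, h4⟩ | ⟨h3, h4⟩
    · exact Or.inl ⟨code_injective h3, code_injective h4⟩
    · exact Or.inr ⟨code_injective h3, code_injective h4⟩
  have H2' : H2 P := by
    intro a b z hab heq c
    obtain ⟨z, rfl⟩ := QuotientGroup.mk'_surjective N z
    change q z * (P a * (P b)⁻¹) * (q z)⁻¹ = P a * (P b)⁻¹ at heq
    change q z * q (h (code c)) = q (h (code c)) * q z
    rw [hPdiff] at heq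
    have h1 := hcen (h (code a) * (h (code b))⁻¹) (hndD _ _ (code_injective.ne hab)) z
      (by rw [← hqe, map_mul, map_mul, map_inv]; exact heq) (h (code c))
    rw [← hqe, map_mul, map_mul, map_inv] at h1
    calc q z * q (h (code c)) = (q z * q (h (code c)) * (q z)⁻¹) * q z := by group
      _ = q (h (code c)) * q z := by rw [h1]
  obtain ⟨c, hcfin⟩ := exists_coloringL P H1' H2'
  refine ⟨fun n => {x | c (q x) = n}, ?_, ?_, ?_⟩
  · intro n
    have hunc' : Uncountable (ℕ → Bool) := by
      rw [← Cardinal.aleph0_lt_mk_iff]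
      simpa using Cardinal.cantor Cardinal.aleph0
    let e : ℝ ≃ᵐ (ℕ → Bool) := PolishSpace.measurableEquivOfNotCountable
      (not_countable_iff.2 inferInstance) (not_countable_iff.2 inferInstance)
    let f : ℝ → G := fun r => (h (code (n, e r)) : G)
    have hfm : Measurable f := by
      have h1 : Continuous (fun b : ℕ → Bool => (h (code (n, b)) : G)) :=
        continuous_subtype_val.comp (hcont.comp (continuous_code n))
      exact h1.measurable.comp e.measurable
    have hqf : Injective (fun r => q (f r)) := by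
      intro r s hrs
      have h2 := hPinj hrs
      rw [Prod.mk.injEq] at h2
      exact e.injective h2.2
    have hfi : Injective f := fun r s hrs => hqf (congrArg q hrs)
    have hemb : MeasurableEmbedding f := hfm.measurableEmbedding hfi
    have hprob : IsProbabilityMeasure (volume.restrict (Icc (0 : ℝ) 1)) := ⟨by simp⟩
    refine ⟨(volume.restrict (Icc (0 : ℝ) 1)).map f,
      Measure.isProbabilityMeasure_map hfm.aemeasurable, fun g k => ?_⟩
    rw [hemb.map_apply]
    apply Set.Countable.measure_zero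
    apply Set.Finite.countable
    have hφ : Injective (fun r : ℝ => (q g)⁻¹ * q (f r) * (q k)⁻¹) := by
      intro r s hrs
      exact hqf (mul_left_cancel (mul_right_cancel hrs))
    refine ((hcfin n (q g)⁻¹ (q k)⁻¹).preimage hφ.injOn).subset ?_
    rintro r ⟨x, hx, hxr⟩
    have hxr' : q g * q x * q k = q (f r) := by
      have := congrArg q hxr
      simpa only [map_mul] using this
    have h1 : (q g)⁻¹ * q (f r) * (q k)⁻¹ = q x := by rw [← hxr']; group
    refine ⟨?_, e r, rfl⟩
    change c ((q g)⁻¹ * q (f r) * (q k)⁻¹) = n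
    rw [h1]
    exact hx
  · intro n m hnm
    rw [Function.onFun, Set.disjoint_left]
    rintro x hx hx'
    exact hnm (hx.symm.trans hx')
  · exact eq_univ_of_forall fun x => mem_iUnion.2 ⟨c (q x), rfl⟩

end Pool.Agent.H170.NHN
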