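import Pool.Agent.H170.NHN.Myc4
import Pool.Agent.H170.NHN.EH

set_option autoImplicit false

/-!
Countable covers of Polish groups by naively Haar null sets.
-/

namespace Pool.Agent.H170.NHN

open Set MeasureTheory TopologicalSpace

universe u

/-- `X` is naively Haar null: some Borel probability measure gives (outer) measure zero to all
two-sided translates of `X`. -/
def NaivelyHaarNull {G : Type u} [Group G] [MeasurableSpace G] (X : Set G) : Prop :=
  ∃ μ : Measure G, IsProbabilityMeasure μ ∧ ∀ g h : G, μ ((fun x => g * x * h) '' X) = 0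

section comb

variable {H : Type u} [Group H] {B : Type} (P : ℕ × B → H)

/-- incidence between points `x` and lines `(n, t)` -/
def Inc (x : H) (l : ℕ × H) : Prop := ∃ b, x = P (l.1, b) * l.2

/-- the bipartite incidence graph -/
def IA : (H ⊕ (ℕ × H)) → (H ⊕ (ℕ × H)) → Prop
  | .inl x, .inr l => Inc P x l
  | .inr l, .inl x => Inc P x l
  | _, _ => False

theorem IA_symm (u v : H ⊕ (ℕ × H)) (h : IA P u v) : IA P v u := by
  rcases u with x | l <;> rcases v with y | m <;> exact h

/-- the differences are essentially unique -/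
def Star : Prop := ∀ a a' d d' : ℕ × B, a ≠ a' → d ≠ d' →
  P a * (P a')⁻¹ = P d * (P d')⁻¹ → (a = d ∧ a' = d') ∨ (a = d' ∧ a' = d)

theorem IA_common (hc : ∀ a x, P a * x = x * P a) (hst : Star P)
    (u v : H ⊕ (ℕ × H)) (huv : u ≠ v) : {w | IA P u w ∧ IA P v w}.Countable := by
  apply Set.Finite.countable
  rcases u with x | ⟨n, t⟩ <;> rcases v with y | ⟨m, s⟩
  · have hxy : x ≠ y := fun h => huv (by rw [h])
    by_cases hne : ∃ w, IA P (.inl x) w ∧ IA P (.inl y) w
    · obtain ⟨w0, h1, h2⟩ := hne
      rcases w0 with _ | ⟨n0, t0⟩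
      · exact h1.elim
      obtain ⟨b0, hb0⟩ := h1
      obtain ⟨b0', hb0'⟩ := h2
      simp only at hb0 hb0'
      refine (Set.toFinite {Sum.inr (n0, (P (n0, b0))⁻¹ * x),
        Sum.inr (n0, (P (n0, b0'))⁻¹ * x)}).subset ?_
      rintro w ⟨h1, h2⟩
      rcases w with _ | ⟨n, t⟩
      · exact h1.elim
      obtain ⟨b, hb⟩ := h1
      obtain ⟨b', hb'⟩ := h2
      simp only at hb hb'
      have e0 : P (n0, b0) * (P (n0, b0'))⁻¹ = x * y⁻¹ := by rw [hb0, hb0']; group
      have e1 : P (n, b) * (P (n, b'))⁻¹ = x * y⁻¹ := by rw [hb, hb']; group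
      have d0 : (n0, b0) ≠ (n0, b0') := by
        intro h; apply hxy; rw [hb0, hb0', h]
      have d1 : (n, b) ≠ (n, b') := by
        intro h; apply hxy; rw [hb, hb', h]
      rcases hst _ _ _ _ d1 d0 (e1.trans e0.symm) with ⟨h, _⟩ | ⟨h, _⟩
      · left
        rw [Prod.mk.injEq] at h
        obtain ⟨rfl, rfl⟩ := h
        rw [hb, inv_mul_cancel_left]
      · right
        rw [Prod.mk.injEq] at h
        obtain ⟨rfl, rfl⟩ := h
        rw [mem_singleton_iff, hb, inv_mul_cancel_left]
    · refine (Set.finite_empty).subset ?_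
      intro w hw
      exact hne ⟨w, hw⟩
  · refine (Set.finite_empty).subset ?_
    rintro (w | w) ⟨h1, h2⟩
    · exact h1
    · exact h2
  · refine (Set.finite_empty).subset ?_
    rintro (w | w) ⟨h1, h2⟩
    · exact h2
    · exact h1
  · by_cases hne : ∃ w, IA P (.inr (n, t)) w ∧ IA P (.inr (m, s)) w
    · obtain ⟨w0, h1, h2⟩ := hne
      rcases w0 with x0 | _
      swap
      · exact h1.elim
      obtain ⟨b0, hb0⟩ := h1
      obtain ⟨d0, hd0⟩ := h2
      simp only at hb0 hd0
      refine (Set.toFinite {Sum.inl (P (n, b0) * t), Sum.inl (P (m, d0) * t)}).subset ?_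
      rintro w ⟨h1, h2⟩
      rcases w with x | _
      swap
      · exact h1.elim
      obtain ⟨b, hb⟩ := h1
      obtain ⟨d, hd⟩ := h2
      simp only at hb hd
      have key : ∀ (z : H) (b d : B), z = P (n, b) * t → z = P (m, d) * s →
          P (n, b) * (P (m, d))⁻¹ = s * t⁻¹ ∧ (n, b) ≠ (m, d) := by
        intro z b d h1 h2
        constructor
        · have h3 : P (n, b) * t = P (m, d) * s := h1.symm.trans h2
          have h4 : P (n, b) = P (m, d) * (s * t⁻¹) := by
            rw [← mul_assoc, ← h3]; group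
          rw [h4, hc]; group
        · intro h
          apply huv
          have hn : n = m := congrArg Prod.fst h
          have : t = s := by
            have h3 : P (n, b) * t = P (m, d) * s := h1.symm.trans h2
            rw [h] at h3
            exact mul_left_cancel h3
          rw [hn, this]
      obtain ⟨e0, f0⟩ := key x0 b0 d0 hb0 hd0
      obtain ⟨e1, f1⟩ := key x b d hb hd
      rcases hst _ _ _ _ f1 f0 (e1.trans e0.symm) with ⟨h, _⟩ | ⟨h, _⟩
      · left
        rw [← h, hb]
      · right
        rw [mem_singleton_iff, ← h, hb]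
    · refine (Set.finite_empty).subset ?_
      intro w hw
      exact hne ⟨w, hw⟩

theorem exists_coloring (hc : ∀ a x, P a * x = x * P a) (hst : Star P) :
    ∃ c : H → ℕ, ∀ (n : ℕ) (t : H), {x | c x = n ∧ ∃ b, x = P (n, b) * t}.Finite := by
  obtain ⟨O, hO1, hO2⟩ := good_of_countable_common (IA P) (IA_symm P) (IA_common P hc hst)
  have hK : ∀ x : H, ∃ n : ℕ, ¬ ∃ t, IA P (.inl x) (.inr (n, t)) ∧ O (.inl x) (.inr (n, t)) := by
    intro x
    have hfin : {n : ℕ | ∃ t, IA P (.inl x) (.inr (n, t)) ∧ O (.inl x) (.inr (n, t))}.Finite := by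
      refine ((hO2 (.inl x)).image (fun v => Sum.elim (fun _ => 0) (fun l => l.1) v)).subset ?_
      rintro n ⟨t, h1, h2⟩
      exact ⟨.inr (n, t), ⟨h1, h2⟩, rfl⟩
    exact hfin.exists_notMem
  choose c hcx using hK
  refine ⟨c, fun n t => ?_⟩
  refine ((hO2 (.inr (n, t))).preimage (Sum.inl_injective.injOn)).subset ?_
  rintro x ⟨rfl, hb⟩
  have hA : IA P (.inl x) (.inr (c x, t)) := hb
  rcases hO1 _ _ hA with h | h
  · exact (hcx x ⟨t, hA, h⟩).elim
  · exact ⟨hA, h⟩

end comb

/-- prefix code -/
def code (a : ℕ × (ℕ → Bool)) : ℕ → Bool := fun k =>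
  if k < a.1 then false else if k = a.1 then true else a.2 (k - a.1 - 1)

theorem code_injective : Function.Injective code := by
  rintro ⟨n, b⟩ ⟨m, d⟩ h
  have key : ∀ (n m : ℕ) (b d : ℕ → Bool), code (n, b) = code (m, d) → ¬ n < m := by
    intro n m b d h hlt
    have := congrFun h n
    simp [code, hlt] at this
  have hnm : n = m := le_antisymm (not_lt.1 (key m n d b h.symm)) (not_lt.1 (key n m b d h))
  subst hnm
  have : b = d := by
    funext k
    have := congrFun h (k + n + 1)
    have h1 : ¬ (k + n + 1 < n) := by omega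
    have h2 : ¬ (k + n + 1 = n) := by omega
    have h3 : k + n + 1 - n - 1 = k := by omega
    simpa [code, h1, h2, h3] using this
  rw [this]

theorem continuous_code (n : ℕ) : Continuous (fun b : ℕ → Bool => code (n, b)) := by
  refine continuous_pi fun k => ?_
  by_cases h1 : k < n
  · simp only [code, h1, if_true]; exact continuous_const
  · by_cases h2 : k = n
    · simp only [code, h2, lt_irrefl, if_false, if_true]; exact continuous_const
    · simp only [code, h1, h2, if_false]; exact continuous_apply _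

theorem inj4 {α : Type*} {a b c d : α} (hab : a ≠ b) (hac : a ≠ c) (had : a ≠ d) (hbc : b ≠ c)
    (hbd : b ≠ d) (hcd : c ≠ d) : Function.Injective ![a, b, c, d] := by
  intro i j h
  fin_cases i <;> fin_cases j <;> simp_all

theorem dense_compl {M : Type u} [Group M] [TopologicalSpace M] [IsTopologicalGroup M]
    [SeparableSpace M] (N : Subgroup M) (hun : Uncountable (M ⧸ N)) :
    Dense ((N : Set M)ᶜ) := by
  rw [← interior_eq_empty_iff_dense_compl]
  by_contra h
  obtain ⟨x, hx⟩ := Set.nonempty_iff_ne_empty.2 h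
  have ho : IsOpen (N : Set M) := N.isOpen_of_mem_nhds (mem_interior_iff_mem_nhds.1 hx)
  obtain ⟨D, hD1, hD2⟩ := exists_countable_dense M
  have : Countable D := hD1.to_subtype
  have hsurj : Function.Surjective (fun d : D => (QuotientGroup.mk (d : M) : M ⧸ N)) := by
    intro y
    obtain ⟨m, rfl⟩ := QuotientGroup.mk_surjective y
    have ho' : IsOpen {z : M | m⁻¹ * z ∈ N} := ho.preimage (continuous_const.mul continuous_id)
    obtain ⟨z, hz1, hz2⟩ := hD2.exists_mem_open ho' ⟨m, by simp⟩
    refine ⟨⟨z, hz1⟩, ?_⟩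
    exact (QuotientGroup.eq.2 hz2).symm
  exact not_countable (hsurj.countable)

end Pool.Agent.H170.NHN
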