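import Mathlib

set_option autoImplicit false

/-!
Mycielski's theorem for an open dense set of quadruples, by the Baire category theorem
(adapted from the binary version in Pool/Agent/H565R2/FO2/Myc.lean).
-/

namespace Pool.Agent.H170.NHN

open Set TopologicalSpace Filter Topology

theorem finite_choice {G : Type*} [MetricSpace G] [CompleteSpace G] {ι : Type*}
    [Fintype ι] (W : Set (Fin 4 → G)) (hWo : IsOpen W) (hWd : Dense W)
    (y0 : ι → G) (ε : ℝ) (hε : 0 < ε) :
    ∃ y : ι → G, (∀ i, dist (y i) (y0 i) < ε) ∧
      ∀ p : Fin 4 → ι, Function.Injective p → (fun j => y (p j)) ∈ W := by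
  classical
  let D : (Fin 4 ↪ ι) → Set (ι → G) := fun p => {y | (fun j => y (p j)) ∈ W}
  have hDo : ∀ p, IsOpen (D p) := by
    intro p
    exact hWo.preimage (continuous_pi fun j => continuous_apply (p j))
  have hDd : ∀ p, Dense (D p) := by
    intro p y
    rw [Metric.mem_closure_iff]
    intro δ hδ
    obtain ⟨w, hw, hwd⟩ := Metric.mem_closure_iff.1 (hWd (fun j => y (p j))) δ hδ
    refine ⟨Function.extend p w y, ?_, ?_⟩
    · change (fun j => Function.extend p w y (p j)) ∈ W
      have : (fun j => Function.extend p w y (p j)) = w := by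
        funext j
        exact p.injective.extend_apply w y j
      rw [this]; exact hw
    · rw [dist_pi_lt_iff hδ]
      rw [dist_pi_lt_iff hδ] at hwd
      intro i
      by_cases h : ∃ j, p j = i
      · obtain ⟨j, rfl⟩ := h
        rw [p.injective.extend_apply]
        exact hwd j
      · rw [Function.extend_apply' _ _ _ h, dist_self]
        exact hδ
  have hd := dense_iInter_of_isOpen hDo hDd
  obtain ⟨y, hy1, hy2⟩ := Metric.mem_closure_iff.1 (hd y0) ε hε
  refine ⟨y, fun i => ?_, fun p hp => mem_iInter.1 hy1 ⟨p, hp⟩⟩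
  rw [dist_pi_lt_iff hε] at hy2
  rw [dist_comm]
  exact hy2 i

/-- restriction of a 0-1-sequence to its first `N` terms -/
def res (N : ℕ) (b : ℕ → Bool) : Fin N → Bool := fun i => b i

theorem continuous_res (N : ℕ) : Continuous (res N) :=
  continuous_pi fun i => continuous_apply (i : ℕ)

theorem exists_res_injective (b : Fin 4 → ℕ → Bool) (hb : Function.Injective b) :
    ∃ N, Function.Injective (fun j => res N (b j)) := by
  have h : ∀ i j : Fin 4, ∃ n, i ≠ j → b i n ≠ b j n := by
    intro i j
    by_cases hij : i = j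
    · exact ⟨0, fun h => absurd hij h⟩
    · obtain ⟨n, hn⟩ := Function.ne_iff.1 (hb.ne hij)
      exact ⟨n, fun _ => hn⟩
  choose n hn using h
  refine ⟨(∑ i, ∑ j, n i j) + 1, fun i j hij => ?_⟩
  by_contra hne
  apply hn i j hne
  have h1 : n i j ≤ ∑ j', n i j' := Finset.single_le_sum (f := fun j' => n i j')
    (fun _ _ => Nat.zero_le _) (Finset.mem_univ j)
  have h2 : ∑ j', n i j' ≤ ∑ i', ∑ j', n i' j' := Finset.single_le_sum
    (f := fun i' => ∑ j', n i' j') (fun _ _ => Nat.zero_le _) (Finset.mem_univ i)
  exact congrFun hij ⟨n i j, by omega⟩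

theorem mycielski4 {G : Type*} [MetricSpace G] [CompleteSpace G] [Nonempty G]
    (W : Set (Fin 4 → G)) (hWo : IsOpen W) (hWd : Dense W) :
    ∃ h : (ℕ → Bool) → G, Continuous h ∧
      ∀ b : Fin 4 → ℕ → Bool, Function.Injective b → (fun j => h (b j)) ∈ W := by
  classical
  let O : ℕ → Set C(ℕ → Bool, G) := fun p =>
    {h | ∀ b : Fin 4 → ℕ → Bool, Function.Injective (fun j => res p (b j)) →
      (fun j => h (b j)) ∈ W}
  have hOo : ∀ p, IsOpen (O p) := by
    intro p
    rw [Metric.isOpen_iff]
    intro h hh
    have hcl : IsClosed {b : Fin 4 → ℕ → Bool | Function.Injective (fun j => res p (b j))} := by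
      have : {b : Fin 4 → ℕ → Bool | Function.Injective (fun j => res p (b j))} =
          (fun b : Fin 4 → ℕ → Bool => (fun j => res p (b j))) ⁻¹'
            {r : Fin 4 → Fin p → Bool | Function.Injective r} := by
        ext q; simp
      rw [this]
      exact (isClosed_discrete _).preimage
        (continuous_pi fun j => (continuous_res p).comp (continuous_apply j))
    have hcomp : IsCompact ((fun b : Fin 4 → ℕ → Bool => (fun j => h (b j))) ''
        {b : Fin 4 → ℕ → Bool | Function.Injective (fun j => res p (b j))}) := by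
      apply hcl.isCompact.image
      exact continuous_pi fun j => h.continuous.comp (continuous_apply j)
    obtain ⟨δ, hδ, hthick⟩ := hcomp.exists_thickening_subset_open hWo (by
      rintro _ ⟨q, hq, rfl⟩
      exact hh q hq)
    refine ⟨δ, hδ, fun g hg b hbb => hthick ?_⟩
    rw [Metric.mem_thickening_iff]
    refine ⟨fun j => h (b j), ⟨b, hbb, rfl⟩, ?_⟩
    rw [Metric.mem_ball] at hg
    rw [dist_pi_lt_iff hδ]
    intro j
    exact (ContinuousMap.dist_apply_le_dist (b j)).trans_lt hg
  have hOd : ∀ p, Dense (O p) := by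
    intro p h0
    rw [Metric.mem_closure_iff]
    intro ε hε
    -- modulus of continuity
    have hN : ∃ N : ℕ, ∀ b b' : ℕ → Bool, (∀ i, i < N → b i = b' i) →
        dist (h0 b) (h0 b') < ε / 3 := by
      by_contra hc
      push Not at hc
      choose B B' hB1 hB2 using hc
      obtain ⟨b, _, φ, hφ, hlim⟩ := (isCompact_univ (X := ℕ → Bool)).tendsto_subseq
        (x := B) (fun n => mem_univ _)
      have hlim' : Tendsto (B' ∘ φ) atTop (𝓝 b) := by
        rw [tendsto_pi_nhds] at hlim ⊢
        intro i
        refine (hlim i).congr' ?_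
        filter_upwards [eventually_gt_atTop i] with k hk
        exact hB1 (φ k) i (lt_of_lt_of_le hk (hφ.id_le k))
      have h1 := (h0.continuous.tendsto b).comp hlim
      have h2 := (h0.continuous.tendsto b).comp hlim'
      have h3 := h1.dist h2
      rw [dist_self] at h3
      have h4 := ge_of_tendsto' h3 (fun k => hB2 (φ k))
      linarith
    obtain ⟨N, hN⟩ := hN
    set M := max N p with hM
    let rep : (Fin M → Bool) → (ℕ → Bool) := fun s i => if h : i < M then s ⟨i, h⟩ else false
    obtain ⟨y, hy1, hy2⟩ := finite_choice W hWo hWd (fun s => h0 (rep s)) (ε / 3)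
      (by linarith)
    refine ⟨⟨fun b => y (res M b), (continuous_of_discreteTopology (f := y)).comp
      (continuous_res M)⟩, ?_, ?_⟩
    · intro b hbb
      apply hy2 (fun j => res M (b j))
      intro j j' hjj
      apply hbb
      funext i
      exact congrFun hjj ⟨i, lt_of_lt_of_le i.2 (le_max_right _ _)⟩
    · rw [ContinuousMap.dist_lt_iff hε]
      intro b
      have h1 : dist (h0 b) (h0 (rep (res M b))) < ε / 3 := by
        apply hN
        intro i hi
        have : i < M := lt_of_lt_of_le hi (le_max_left _ _)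
        simp only [rep, dif_pos this, res]
      have h2 := hy1 (res M b)
      calc dist (h0 b) (y (res M b)) ≤ dist (h0 b) (h0 (rep (res M b))) +
            dist (h0 (rep (res M b))) (y (res M b)) := dist_triangle _ _ _
        _ < ε / 3 + ε / 3 := by
            rw [dist_comm (h0 (rep (res M b))) (y (res M b))]
            exact add_lt_add h1 h2
        _ < ε := by linarith
  have hne : Nonempty C(ℕ → Bool, G) := ⟨ContinuousMap.const _ (Classical.arbitrary G)⟩
  have hd := dense_iInter_of_isOpen hOo hOd
  obtain ⟨h, hh⟩ := hd.nonempty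
  refine ⟨h, h.continuous, fun b hb => ?_⟩
  obtain ⟨N, hN⟩ := exists_res_injective b hb
  exact mem_iInter.1 hh N b hN

theorem mycielski4' {G : Type*} [TopologicalSpace G] [IsCompletelyMetrizableSpace G] [Nonempty G]
    (W : Set (Fin 4 → G)) (hWo : IsOpen W) (hWd : Dense W) :
    ∃ h : (ℕ → Bool) → G, Continuous h ∧
      ∀ b : Fin 4 → ℕ → Bool, Function.Injective b → (fun j => h (b j)) ∈ W := by
  let := upgradeIsCompletelyMetrizable G
  exact mycielski4 W hWo hWd

end Pool.Agent.H170.NHN
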