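import Pool.Agent.H170.NHN.Cover

set_option autoImplicit false

/-!
Mycielski's theorem for countably many open dense sets of quadruples.
-/

namespace Pool.Agent.H170.NHN

open Set TopologicalSpace Filter Topology

theorem mycielski4N {G : Type*} [MetricSpace G] [CompleteSpace G] [Nonempty G] {κ : Type}
    [Countable κ] (W : κ → Set (Fin 4 → G)) (hWo : ∀ k, IsOpen (W k)) (hWd : ∀ k, Dense (W k)) :
    ∃ h : (ℕ → Bool) → G, Continuous h ∧
      ∀ b : Fin 4 → ℕ → Bool, Function.Injective b → ∀ k, (fun j => h (b j)) ∈ W k := by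
  classical
  let O : ℕ × κ → Set C(ℕ → Bool, G) := fun p =>
    {h | ∀ b : Fin 4 → ℕ → Bool, Function.Injective (fun j => res p.1 (b j)) →
      (fun j => h (b j)) ∈ W p.2}
  have hOo : ∀ p, IsOpen (O p) := by
    intro p
    rw [Metric.isOpen_iff]
    intro h hh
    have hcl : IsClosed {b : Fin 4 → ℕ → Bool | Function.Injective (fun j => res p.1 (b j))} := by
      have : {b : Fin 4 → ℕ → Bool | Function.Injective (fun j => res p.1 (b j))} =
          (fun b : Fin 4 → ℕ → Bool => (fun j => res p.1 (b j))) ⁻¹'
            {r : Fin 4 → Fin p.1 → Bool | Function.Injective r} := by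
        ext q; simp
      rw [this]
      exact (isClosed_discrete _).preimage
        (continuous_pi fun j => (continuous_res p.1).comp (continuous_apply j))
    have hcomp : IsCompact ((fun b : Fin 4 → ℕ → Bool => (fun j => h (b j))) ''
        {b : Fin 4 → ℕ → Bool | Function.Injective (fun j => res p.1 (b j))}) := by
      apply hcl.isCompact.image
      exact continuous_pi fun j => h.continuous.comp (continuous_apply j)
    obtain ⟨δ, hδ, hthick⟩ := hcomp.exists_thickening_subset_open (hWo p.2) (by
      rintro _ ⟨q, hq, rfl⟩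
      exact hh q hq)
    refine ⟨δ, hδ, fun g hg b hbb => hthick ?_⟩
    rw [Metric.mem_thickening_iff]
    refine ⟨fun j => h (b j), ⟨b, hbb, rfl⟩, ?_⟩
    rw [Metric.mem_ball] at hg
    rw [dist_pi_lt_iff hδ]
    intro j
    exact (ContinuousMap.dist_apply_le_dist (b j)).trans_lt hg
  have hOd : ∀ p, Dense (O p) := by
    intro p h0
    rw [Metric.mem_closure_iff]
    intro ε hε
    -- modulus of continuity
    have hN : ∃ N : ℕ, ∀ b b' : ℕ → Bool, (∀ i, i < N → b i = b' i) →
        dist (h0 b) (h0 b') < ε / 3 := by
      by_contra hc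
      push Not at hc
      choose B B' hB1 hB2 using hc
      obtain ⟨b, _, φ, hφ, hlim⟩ := (isCompact_univ (X := ℕ → Bool)).tendsto_subseq
        (x := B) (fun n => mem_univ _)
      have hlim' : Tendsto (B' ∘ φ) atTop (𝓝 b) := by
        rw [tendsto_pi_nhds] at hlim ⊢
        intro i
        refine (hlim i).congr' ?_
        filter_upwards [eventually_gt_atTop i] with k hk
        exact hB1 (φ k) i (lt_of_lt_of_le hk (hφ.id_le k))
      have h1 := (h0.continuous.tendsto b).comp hlim
      have h2 := (h0.continuous.tendsto b).comp hlim'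
      have h3 := h1.dist h2
      rw [dist_self] at h3
      have h4 := ge_of_tendsto' h3 (fun k => hB2 (φ k))
      linarith
    obtain ⟨N, hN⟩ := hN
    set M := max N p.1 with hM
    let rep : (Fin M → Bool) → (ℕ → Bool) := fun s i => if h : i < M then s ⟨i, h⟩ else false
    obtain ⟨y, hy1, hy2⟩ := finite_choice (W p.2) (hWo p.2) (hWd p.2) (fun s => h0 (rep s)) (ε / 3)
      (by linarith)
    refine ⟨⟨fun b => y (res M b), (continuous_of_discreteTopology (f := y)).comp
      (continuous_res M)⟩, ?_, ?_⟩
    · intro b hbb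
      apply hy2 (fun j => res M (b j))
      intro j j' hjj
      apply hbb
      funext i
      exact congrFun hjj ⟨i, lt_of_lt_of_le i.2 (le_max_right _ _)⟩
    · rw [ContinuousMap.dist_lt_iff hε]
      intro b
      have h1 : dist (h0 b) (h0 (rep (res M b))) < ε / 3 := by
        apply hN
        intro i hi
        have : i < M := lt_of_lt_of_le hi (le_max_left _ _)
        simp only [rep, dif_pos this, res]
      have h2 := hy1 (res M b)
      calc dist (h0 b) (y (res M b)) ≤ dist (h0 b) (h0 (rep (res M b))) +
            dist (h0 (rep (res M b))) (y (res M b)) := dist_triangle _ _ _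
        _ < ε / 3 + ε / 3 := by
            rw [dist_comm (h0 (rep (res M b))) (y (res M b))]
            exact add_lt_add h1 h2
        _ < ε := by linarith
  have hne : Nonempty C(ℕ → Bool, G) := ⟨ContinuousMap.const _ (Classical.arbitrary G)⟩
  have hd := dense_iInter_of_isOpen hOo hOd
  obtain ⟨h, hh⟩ := hd.nonempty
  refine ⟨h, h.continuous, fun b hb k => ?_⟩
  obtain ⟨N, hN⟩ := exists_res_injective b hb
  exact mem_iInter.1 hh (N, k) b hN

theorem mycielski4N' {G : Type*} [TopologicalSpace G] [IsCompletelyMetrizableSpace G] [Nonempty G]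
    {κ : Type} [Countable κ] (W : κ → Set (Fin 4 → G)) (hWo : ∀ k, IsOpen (W k))
    (hWd : ∀ k, Dense (W k)) :
    ∃ h : (ℕ → Bool) → G, Continuous h ∧
      ∀ b : Fin 4 → ℕ → Bool, Function.Injective b → ∀ k, (fun j => h (b j)) ∈ W k := by
  let := upgradeIsCompletelyMetrizable G
  exact mycielski4N W hWo hWd

end Pool.Agent.H170.NHN
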