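import Pool.Agent.H170.NHN.Cover

set_option autoImplicit false

/-!
Partitions of Polish groups into two naively Haar null sets, if sets of reals of size less than the
continuum are null.
-/

namespace Pool.Agent.H170.NHN

open Set MeasureTheory TopologicalSpace Function Cardinal

universe u

theorem exists_rank {V : Type u} (A : V → V → Prop) (hs : ∀ u v, A u v → A v u)
    (hA : ∀ u v, u ≠ v → {w | A u w ∧ A v w}.Countable) (hc : ℵ₀ < #V) :
    ∃ R : V → V → Prop, (∀ x, {y | A x y ∧ R y x}.Subsingleton) ∧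
      ∀ x, #{y | ¬ R x y} < #V := by
  obtain ⟨lo, wo, hr⟩ := Cardinal.exists_ord_eq_type_lt V
  have hseg : ∀ a : V, #(Iic a) < #V := by
    intro a
    have h1 : #(Iio a) < #V := mk_Iio_lt a hr
    have h2 : (Iic a : Set V) ⊆ Iio a ∪ {a} := by
      intro x hx
      rcases lt_or_eq_of_le hx with h | h
      · exact Or.inl h
      · exact Or.inr h
    refine (mk_le_mk_of_subset h2).trans_lt ((mk_union_le _ _).trans_lt ?_)
    refine add_lt_of_lt hc.le h1 ?_
    rw [mk_singleton]
    exact one_lt_aleph0.trans hc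
  have hcl : ∀ a : V, #(cl A (Iic a)) < #V := by
    intro a
    refine (mk_cl_le A hA (le_max_right (#(Iic a)) ℵ₀) (le_max_left _ _)).trans_lt ?_
    exact max_lt (hseg a) hc
  have hne : ∀ x : V, {a | x ∈ cl A (Iic a)}.Nonempty :=
    fun x => ⟨x, subset_cl A _ (mem_Iic.2 le_rfl)⟩
  let ρ : V → V := fun x => WellFounded.min wellFounded_lt {a | x ∈ cl A (Iic a)} (hne x)
  have hρ1 : ∀ x, x ∈ cl A (Iic (ρ x)) := fun x => WellFounded.min_mem _ _ (hne x)
  have hρ2 : ∀ x a, x ∈ cl A (Iic a) → ρ x ≤ a := fun x a h =>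
    not_lt.1 (WellFounded.not_lt_min wellFounded_lt {a | x ∈ cl A (Iic a)} h)
  refine ⟨fun y x => ρ y < ρ x, ?_, ?_⟩
  · intro x
    rintro y ⟨hy1, hy2⟩ z ⟨hz1, hz2⟩
    by_contra hyz
    have hy3 : y ∈ cl A (Iic (max (ρ y) (ρ z))) :=
      cl_mono A (Iic_subset_Iic.2 (le_max_left _ _)) (hρ1 y)
    have hz3 : z ∈ cl A (Iic (max (ρ y) (ρ z))) :=
      cl_mono A (Iic_subset_Iic.2 (le_max_right _ _)) (hρ1 z)
    have := hρ2 x _ (cl_closed A _ hy3 hz3 hyz (hs _ _ hy1) (hs _ _ hz1))
    exact absurd (max_lt hy2 hz2) (not_lt.2 this)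
  · intro x
    refine lt_of_le_of_lt (mk_le_mk_of_subset ?_) (hcl (ρ x))
    intro y hy
    exact cl_mono A (Iic_subset_Iic.2 (not_lt.1 hy)) (hρ1 y)

/-- a colouring of the points with two colours -/
theorem exists_coloring2 {H : Type u} [Group H] {B : Type} (P : ℕ × B → H)
    (hc : ∀ a x, P a * x = x * P a) (hst : Star P) (hV : ℵ₀ < #(H ⊕ (ℕ × H))) :
    ∃ c : H → ℕ, (∀ x, c x = 0 ∨ c x = 1) ∧
      ∀ (n : ℕ) (t : H), #{x | c x = n ∧ ∃ b, x = P (n, b) * t} < #(H ⊕ (ℕ × H)) := by
  obtain ⟨R, hR1, hR2⟩ := exists_rank (IA P) (IA_symm P) (IA_common P hc hst) hV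
  have hK : ∀ x : H, ∃ n : ℕ, (n = 0 ∨ n = 1) ∧
      ¬ ∃ t, IA P (.inl x) (.inr (n, t)) ∧ R (.inr (n, t)) (.inl x) := by
    intro x
    by_contra hcon
    push Not at hcon
    obtain ⟨t0, h0⟩ := hcon 0 (Or.inl rfl)
    obtain ⟨t1, h1⟩ := hcon 1 (Or.inr rfl)
    have h2 := hR1 (.inl x) h0 h1
    simp at h2
  choose c hc01 hcx using hK
  refine ⟨c, hc01, fun n t => ?_⟩
  refine lt_of_le_of_lt ?_ (hR2 (.inr (n, t)))
  refine mk_le_of_injective (f := fun x => ⟨Sum.inl x.1, ?_⟩) ?_
  · intro h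
    obtain ⟨h1, h2⟩ := x.2
    have hA : IA P (.inl x.1) (.inr (n, t)) := h2
    apply hcx x.1
    rw [h1]
    exact ⟨t, hA, h⟩
  · intro x y hxy
    have := congrArg Subtype.val hxy
    exact Subtype.ext (Sum.inl_injective this)

theorem cover2 {G : Type} [Group G] [TopologicalSpace G] [IsTopologicalGroup G] [PolishSpace G]
    [MeasurableSpace G] [BorelSpace G] (N M : Subgroup G) (hn : N.Normal)
    (hN : IsClosed (N : Set G)) (hM : IsClosed (M : Set G))
    (hcomm : ∀ g : G, ∀ m ∈ M, g * m * g⁻¹ * m⁻¹ ∈ N)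
    (hun : Uncountable (M ⧸ N.subgroupOf M))
    (hnull : ∀ A : Set ℝ, #A < 𝔠 → volume A = 0) :
    ∃ S : Set G, NaivelyHaarNull S ∧ NaivelyHaarNull Sᶜ := by
  obtain ⟨h, hcont, hgen⟩ := exists_generic N M hN hM hun
  let q : G →* G ⧸ N := QuotientGroup.mk' N
  have hq : ∀ x : G, q x = 1 ↔ x ∈ N := fun x => QuotientGroup.eq_one_iff x
  let P : ℕ × (ℕ → Bool) → G ⧸ N := fun a => q (h (code a))
  have hc : ∀ a x, P a * x = x * P a := by
    intro a x
    obtain ⟨g, rfl⟩ := QuotientGroup.mk'_surjective N x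
    have h1 := (hq _).2 (hcomm g (h (code a)) (h (code a)).2)
    simp only [map_mul, map_inv] at h1
    change q (h (code a)) * q g = q g * q (h (code a))
    have h2 : q g * q (h (code a)) * (q g)⁻¹ = q (h (code a)) := by
      rw [← mul_inv_eq_one]; exact h1
    calc q (h (code a)) * q g = (q g * q (h (code a)) * (q g)⁻¹) * q g := by rw [h2]
      _ = q g * q (h (code a)) := by group
  -- genericity in the quotient
  have hfresh : ∀ s : Finset (ℕ → Bool), ∃ c, c ∉ s := fun s => Infinite.exists_notMem_finset s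
  have hQ4 : ∀ a b c d : ℕ → Bool, a ≠ b → a ≠ c → a ≠ d → b ≠ c → b ≠ d → c ≠ d →
      q (h a) * (q (h b))⁻¹ ≠ q (h c) * (q (h d))⁻¹ := by
    intro a b c d h1 h2 h3 h4 h5 h6 he
    refine (hgen _ (inj4 h1 h2 h3 h4 h5 h6)).1 ?_
    rw [← hq]
    simp only [map_mul, map_inv]
    rw [mul_inv_eq_one]
    exact he
  have hQ3 : ∀ a b c : ℕ → Bool, a ≠ b → a ≠ c → b ≠ c →
      q (h a) * (q (h b))⁻¹ ≠ q (h b) * (q (h c))⁻¹ := by
    intro a b c h1 h2 h3 he
    classical
    obtain ⟨d, hd⟩ := hfresh {a, b, c}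
    simp only [Finset.mem_insert, Finset.mem_singleton, not_or] at hd
    refine (hgen _ (inj4 h1 h2 (Ne.symm hd.1) h3 (Ne.symm hd.2.1) (Ne.symm hd.2.2))).2.1 ?_
    rw [← hq]
    simp only [map_mul, map_inv]
    rw [mul_inv_eq_one]
    exact he
  have hQ2 : ∀ a b : ℕ → Bool, a ≠ b → q (h a) ≠ q (h b) := by
    intro a b h1 he
    classical
    obtain ⟨c, hc⟩ := hfresh {a, b}
    simp only [Finset.mem_insert, Finset.mem_singleton, not_or] at hc
    obtain ⟨d, hd⟩ := hfresh {a, b, c}
    simp only [Finset.mem_insert, Finset.mem_singleton, not_or] at hd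
    refine (hgen _ (inj4 h1 (Ne.symm hc.1) (Ne.symm hd.1) (Ne.symm hc.2) (Ne.symm hd.2.1)
      (Ne.symm hd.2.2))).2.2 ?_
    rw [← hq]
    simp only [map_mul, map_inv]
    rw [mul_inv_eq_one]
    exact he
  have hstar' : ∀ a b c d : ℕ → Bool, a ≠ b → c ≠ d →
      q (h a) * (q (h b))⁻¹ = q (h c) * (q (h d))⁻¹ → (a = c ∧ b = d) ∨ (a = d ∧ b = c) := by
    intro a b c d hab hcd he
    by_cases hac : a = c
    · subst hac
      left
      refine ⟨rfl, ?_⟩
      by_contra hbd
      exact hQ2 b d hbd (inv_injective (mul_left_cancel he))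
    · by_cases hbd : b = d
      · subst hbd
        exact (hQ2 a c hac (mul_right_cancel he)).elim
      · by_cases had : a = d
        · subst had
          by_cases hbc : b = c
          · exact Or.inr ⟨rfl, hbc⟩
          · exact (hQ3 c a b (Ne.symm hac) (Ne.symm hbc) hab he.symm).elim
        · by_cases hbc : b = c
          · subst hbc
            exact (hQ3 a b d hab had hbd he).elim
          · exact (hQ4 a b c d hab hac had hbc hbd hcd he).elim
  have hst : Star P := by
    intro a a' d d' h1 h2 he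
    rcases hstar' (code a) (code a') (code d) (code d') (code_injective.ne h1)
      (code_injective.ne h2) he with ⟨h3, h4⟩ | ⟨h3, h4⟩
    · exact Or.inl ⟨code_injective h3, code_injective h4⟩
    · exact Or.inr ⟨code_injective h3, code_injective h4⟩
  have hPinj : Injective P := by
    intro a a' he
    by_contra hne
    exact hQ2 _ _ (code_injective.ne hne) he
  have hG : #G ≤ 𝔠 := by
    rw [← mk_real]
    exact mk_le_of_injective (measurableEmbedding_embeddingReal G).injective
  have hH : #(G ⧸ N) ≤ 𝔠 := (mk_le_of_surjective (QuotientGroup.mk'_surjective N)).trans hG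
  have hV1 : #((G ⧸ N) ⊕ (ℕ × (G ⧸ N))) ≤ 𝔠 := by
    rw [mk_sum, mk_prod, lift_id, lift_id, mk_nat, lift_aleph0]
    refine (add_le_add hH (mul_le_mul' aleph0_le_continuum hH)).trans ?_
    rw [mul_eq_self aleph0_le_continuum, add_eq_self aleph0_le_continuum]
  have hV2 : ℵ₀ < #((G ⧸ N) ⊕ (ℕ × (G ⧸ N))) := by
    have hi : Injective (fun b : ℕ → Bool =>
        (Sum.inl (P (0, b)) : (G ⧸ N) ⊕ (ℕ × (G ⧸ N)))) := by
      intro b b' hbb
      have h1 := hPinj (Sum.inl_injective hbb)
      rw [Prod.mk.injEq] at h1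
      exact h1.2
    refine lt_of_lt_of_le ?_ (mk_le_of_injective hi)
    simpa using Cardinal.cantor Cardinal.aleph0
  obtain ⟨c, hc01, hcsmall⟩ := exists_coloring2 P hc hst hV2
  have key : ∀ n, NaivelyHaarNull {x : G | c (q x) = n} := by
    intro n
    have hunc : Uncountable (ℕ → Bool) := by
      rw [← Cardinal.aleph0_lt_mk_iff]
      simpa using Cardinal.cantor Cardinal.aleph0
    let e : ℝ ≃ᵐ (ℕ → Bool) := PolishSpace.measurableEquivOfNotCountable
      (not_countable_iff.2 inferInstance) (not_countable_iff.2 inferInstance)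
    let f : ℝ → G := fun r => (h (code (n, e r)) : G)
    have hfm : Measurable f := by
      have h1 : Continuous (fun b : ℕ → Bool => (h (code (n, b)) : G)) :=
        continuous_subtype_val.comp (hcont.comp (continuous_code n))
      exact h1.measurable.comp e.measurable
    have hfi : Injective f := by
      intro r s hrs
      have h1 : P (n, e r) = P (n, e s) := congrArg q hrs
      have h2 := hPinj h1
      rw [Prod.mk.injEq] at h2
      exact e.injective h2.2
    have hemb : MeasurableEmbedding f := hfm.measurableEmbedding hfi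
    have hprob : IsProbabilityMeasure (volume.restrict (Icc (0 : ℝ) 1)) := ⟨by simp⟩
    refine ⟨(volume.restrict (Icc (0 : ℝ) 1)).map f,
      Measure.isProbabilityMeasure_map hfm.aemeasurable, fun g k => ?_⟩
    rw [hemb.map_apply]
    refine Measure.absolutelyContinuous_of_le Measure.restrict_le_self ?_
    apply hnull
    refine lt_of_le_of_lt ?_ ((hcsmall n ((q g)⁻¹ * (q k)⁻¹)).trans_le hV1)
    refine mk_le_of_injective (f := fun r => ⟨P (n, e r.1) * ((q g)⁻¹ * (q k)⁻¹), ?_⟩) ?_
    · obtain ⟨r, x, hx, hxr⟩ := r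
      have h1 : q x = P (n, e r) * ((q g)⁻¹ * (q k)⁻¹) := by
        have h2 : q g * q x * q k = P (n, e r) := by
          have := congrArg q hxr
          simpa only [map_mul] using this
        have h3 : q x = (q g)⁻¹ * P (n, e r) * (q k)⁻¹ := by
          rw [← h2]; group
        rw [h3, ← hc, mul_assoc]
      refine ⟨?_, e r, rfl⟩
      change c (P (n, e r) * ((q g)⁻¹ * (q k)⁻¹)) = n
      rw [← h1]
      exact hx
    · intro r s hrs
      have h1 := congrArg Subtype.val hrs
      have h2 := hPinj (mul_right_cancel h1)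
      rw [Prod.mk.injEq] at h2
      exact Subtype.ext (e.injective h2.2)
  refine ⟨{x : G | c (q x) = 0}, key 0, ?_⟩
  have : {x : G | c (q x) = 0}ᶜ = {x : G | c (q x) = 1} := by
    ext x
    simp only [mem_compl_iff, mem_ofPred_eq]
    rcases hc01 (q x) with h1 | h1 <;> simp [h1]
  rw [this]
  exact key 1

end Pool.Agent.H170.NHN
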